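import Pool.Agent.Lib.MP_305fdd_al.Su.G.Fin
import Pool.Agent.Lib.MP_305fdd_al.Su.PR.App
import Pool.Agent.Lib.MP_305fdd_al.Su.Fin.Free
import Pool.Agent.Lib.MP_305fdd_al.Su.AA.Mod
import Pool.Agent.Lib.MP_305fdd_al.Su.CM.Use

/-!
# MP_305fdd_al, surface groups: LEMMA G

`lemG`: `Γ` is the image of the generic representation of a group with the finite quotients of the surface
group of genus `g ≥ 2` and the Cartier operators are nilpotent on a nonzero ideal of the ring of the traces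
of `Γ`.  Then the same holds for every finitely generated non-abelian subgroup.
-/

set_option autoImplicit false
set_option linter.unusedSectionVars false

namespace Pool.Agent.SuG

open Matrix (SpecialLinearGroup)
open Pool.Agent.Su Pool.Agent.Lib.MP_305fdd_al Pool.Agent.MP_305fdd_al Pool.Agent.FrN
  Pool.Agent.FrAsm Pool.Agent.SuS Pool.Agent.SuSM Pool.Agent.SuTk Pool.Agent.SuL Pool.Agent.SuU
  Pool.Agent.F2Ch Pool.Agent.F2RF Pool.Agent.SuAA Pool.Agent.SuMin Pool.Agent.FrS Pool.Agent.SuRS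
  Pool.Agent.SuFin

section

variable {Λ Γ K F : Type} [Group Λ] [Group Γ] [Field K] [Field F] [Algebra (ZMod 2) K]
  [Algebra (ZMod 2) F] [Algebra K F] {T : Γ → K} {ρ : Γ →* SpecialLinearGroup (Fin 2) F}
  {π : Λ →* Γ} {g : ℕ}

/-- LEMMA G for the class `Sc`. -/
theorem lemG_sc [Group.FG Λ] (hg : 2 ≤ g) (Φ : NatBij Λ (SurfaceGroup g))
    (hπ : Function.Surjective π) (hgn : Gn 2 (ρ.comp π)) (H : Sc Γ K F T ρ) (hN : NIL T)
    {P : Subgroup Γ} (hfg : P.FG) (hP : ¬ ∀ x ∈ P, ∀ y ∈ P, x * y = y * x) : NIL (TP T P) :=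
  lemG_of hg Φ hπ hgn H hN hfg hP fun S hS y hy => SuPR.propR_app H hfg S hS y hy

/-- LEMMA G for all finitely generated non-abelian subgroups. -/
theorem nilS_sc [Group.FG Λ] (hg : 2 ≤ g) (Φ : NatBij Λ (SurfaceGroup g))
    (hπ : Function.Surjective π) (hgn : Gn 2 (ρ.comp π)) (H : Sc Γ K F T ρ) (hN : NIL T) :
    NilS ρ := by
  intro P hfg hab
  have h2 : ¬ ∀ x ∈ P, ∀ y ∈ P, x * y = y * x := fun h =>
    hab fun x y => Subtype.ext (h x x.2 y y.2)
  refine ⟨KP T P, inferInstance, inferInstance,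
    ((algebraMap K F).comp (algebraMap (KP T P) K)).toAlgebra, TP T P, fun x => ?_, frc_BBP,
    lemG_sc hg Φ hπ hgn H hN hfg h2⟩
  exact H.tr x

end

/-- LEMMA G. -/
theorem lemG {g : ℕ} {Λ Γ F : Type} [Group Λ] [Group Γ] [Field F] [Algebra (ZMod 2) F]
    {π : Λ →* Γ} {ρ : Γ →* SpecialLinearGroup (Fin 2) F} (P : Pk g π ρ) (hN : NIL (FrH.TT ρ)) :
    NilS ρ := by
  have := P.fgL
  obtain ⟨Φ⟩ := P.nb
  exact nilS_sc P.two Φ P.surj P.gn (P.sc (SuCM.pk_div P)) hN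

/-- LEMMA G from the model. -/
theorem lemG' {g : ℕ} {Λ Γ F : Type} [Group Λ] [Group Γ] [Field F] [Algebra (ZMod 2) F]
    {π : Λ →* Γ} {ρ : Γ →* SpecialLinearGroup (Fin 2) F} (P : Pk g π ρ) (hm : Model g) :
    NilS ρ := lemG P (P.nil hm)

end Pool.Agent.SuG
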