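import Pool.Agent.Lib.MP_305fdd_al.Su.G.Defs

/-!
# MP_305fdd_al, surface groups: the complement of `T g = 0`, the slice

Adapted from Fr/N/C/{p_irr, p_tra, p_reg, p_ext}.lean (class `HG` instead of `HB`).
-/

set_option autoImplicit false

namespace Pool.Agent.SuG

open Pool.Agent.FrN Pool.Agent.FrNC Pool.Agent.F2Ch Pool.Agent.F2RF Pool.Agent.F2TF Matrix

section irr

variable {Γ K L : Type} [Group Γ] [Field K] [Field L] [Algebra K L]

/-- a common eigenvector is impossible -/
theorem g_no_eig (T : Γ → K) (g : Γ) (hg : ∃ a c : Γ, g = a * c * a⁻¹ * c⁻¹) (hTg : T g ≠ 0)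
    (r : Γ →* Matrix.SpecialLinearGroup (Fin 2) L)
    (htr : ∀ h, (r h).1.trace = algebraMap K L (T h)) (E : Type) [Field E] [Algebra L E]
    (h2 : (2 : E) = 0)
    (ψ : E) (hψ : ∀ h, algebraMap L E ((r h).1 1 0) + algebraMap L E ((r h).1 1 1) * ψ =
      (algebraMap L E ((r h).1 0 0) + algebraMap L E ((r h).1 0 1) * ψ) * ψ) : False := by
  classical
  have hdet : ∀ h, algebraMap L E ((r h).1 0 0) * algebraMap L E ((r h).1 1 1) -
      algebraMap L E ((r h).1 0 1) * algebraMap L E ((r h).1 1 0) = 1 := by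
    intro h
    have := (r h).2
    rw [Matrix.det_fin_two] at this
    rw [← map_mul, ← map_mul, ← map_sub, this, map_one]
  let c : Γ → E := fun h => algebraMap L E ((r h).1 0 0) + algebraMap L E ((r h).1 0 1) * ψ
  have hcm : ∀ h h', c (h * h') = c h * c h' := by
    intro h h'
    have e0 : (r (h * h')).1 0 0 = (r h).1 0 0 * (r h').1 0 0 + (r h).1 0 1 * (r h').1 1 0 := by
      rw [map_mul]
      change ((r h).1 * (r h').1) 0 0 = _
      rw [Matrix.mul_apply, Fin.sum_univ_two]
    have e1 : (r (h * h')).1 0 1 = (r h).1 0 0 * (r h').1 0 1 + (r h).1 0 1 * (r h').1 1 1 := by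
      rw [map_mul]
      change ((r h).1 * (r h').1) 0 1 = _
      rw [Matrix.mul_apply, Fin.sum_univ_two]
    simp only [c]
    rw [e0, e1, map_add, map_add, map_mul, map_mul, map_mul, map_mul]
    linear_combination (algebraMap L E ((r h).1 0 1)) * hψ h'
  have hc1 : c 1 = 1 := by
    simp only [c]
    rw [map_one]
    change algebraMap L E ((1 : Matrix (Fin 2) (Fin 2) L) 0 0) +
      algebraMap L E ((1 : Matrix (Fin 2) (Fin 2) L) 0 1) * ψ = 1
    simp
  let χ₀ : Γ →* E := ⟨⟨c, hc1⟩, hcm⟩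
  let χ : Γ →* Eˣ := χ₀.toHomUnits
  have hχ : ∀ h, (χ h : E) = c h := fun h => rfl
  have htc : ∀ h, algebraMap L E (algebraMap K L (T h)) = (χ h : E) + (χ h : E)⁻¹ := by
    intro h
    have h1 : (χ h : E) ≠ 0 := Units.ne_zero _
    rw [hχ] at h1 ⊢
    rw [← htr, Matrix.trace_fin_two, map_add]
    field_simp
    simp only [c]
    linear_combination hdet h + (algebraMap L E ((r h).1 0 1)) * hψ h
  obtain ⟨a, c', hac⟩ := hg
  have h1 : χ g = 1 := by
    rw [hac, map_mul, map_mul, map_mul, map_inv, map_inv]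
    rw [mul_comm (χ a) (χ c'), mul_assoc (χ c') (χ a), mul_inv_cancel, mul_one, mul_inv_cancel]
  have h3 := htc g
  rw [h1, Units.val_one, inv_one] at h3
  have h4 : algebraMap L E (algebraMap K L (T g)) = 0 := by
    rw [h3]
    linear_combination h2
  exact hTg ((map_eq_zero (algebraMap K L)).1 ((map_eq_zero (algebraMap L E)).1 h4))

end irr

theorem g_irr (Γ K L : Type) [Group Γ] [Field K] [Field L]
    [Algebra K L] [CharP L 2] (T : Γ → K)
    (r : Γ →* Matrix.SpecialLinearGroup (Fin 2) L) (g : Γ)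
    (hgc : ∃ a c : Γ, g = a * c * a⁻¹ * c⁻¹) (hTg : T g ≠ 0)
    (htr : ∀ h, (r h).1.trace = algebraMap K L (T h)) :
    ∃ h₀ : Γ, (uu (algebraMap K L (T g)) (r h₀).1).norm ≠ 0 := by
  by_contra hcon
  push Not at hcon
  let t : L := algebraMap K L (T g)
  have ht : t ≠ 0 := fun h => hTg ((algebraMap K L).injective (by rw [map_zero]; exact h))
  have h2 : (2 : L) = 0 := CharTwo.two_eq_zero
  let E := AlgebraicClosure L
  have h2E : (2 : E) = 0 := by
    rw [← map_ofNat (algebraMap L E) 2, h2, map_zero]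
  obtain ⟨ψ, hψ⟩ : ∃ ψ : E, ψ ^ 2 + algebraMap L E t * ψ + 1 = 0 := by
    obtain ⟨ψ, hψ⟩ := IsAlgClosed.exists_root
      (Polynomial.X ^ 2 + Polynomial.C (algebraMap L E t) * Polynomial.X + 1 : Polynomial E)
      (by
        have : (Polynomial.X ^ 2 + Polynomial.C (algebraMap L E t) * Polynomial.X + 1 :
          Polynomial E).degree = 2 := by compute_degree!
        rw [this]
        norm_num)
    refine ⟨ψ, ?_⟩
    simpa [Polynomial.IsRoot.def] using hψ
  let C : E → Γ → E := fun ψ h => algebraMap L E ((r h).1 1 0) +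
    algebraMap L E ((r h).1 1 1) * ψ -
      (algebraMap L E ((r h).1 0 0) + algebraMap L E ((r h).1 0 1) * ψ) * ψ
  have hCC : ∀ h, C ψ h * C (ψ + algebraMap L E t) h = 0 := by
    intro h
    have h1 := hcon h
    rw [QuadraticAlgebra.norm_def] at h1
    simp only [uu] at h1
    have h3 : ((r h).1 0 1 + (r h).1 1 0) ^ 2 + t * ((r h).1 0 1 + (r h).1 1 0) *
        (t * (r h).1 1 0 + ((r h).1 0 0 + (r h).1 1 1)) -
        (t * (r h).1 1 0 + ((r h).1 0 0 + (r h).1 1 1)) ^ 2 = 0 := by
      have h4 : (algebraMap K L) (T g) = t := rfl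
      rw [h4] at h1
      field_simp at h1
      linear_combination h1
    have h5 := congrArg (algebraMap L E) h3
    simp only [map_sub, map_add, map_mul, map_pow, map_zero] at h5
    simp only [C]
    generalize algebraMap L E ((r h).1 0 0) = m00 at *
    generalize algebraMap L E ((r h).1 0 1) = m01 at *
    generalize algebraMap L E ((r h).1 1 0) = m10 at *
    generalize algebraMap L E ((r h).1 1 1) = m11 at *
    generalize algebraMap L E t = s at *
    have e1 : m10 + m11 * ψ - (m00 + m01 * ψ) * ψ =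
        (m10 + m01) + ((m00 + m11) + s * m01) * ψ := by
      linear_combination (-m01) * hψ - (m00 * ψ) * h2E
    have hψ' : (ψ + s) ^ 2 + s * (ψ + s) + 1 = 0 := by
      linear_combination hψ + (s * ψ + s ^ 2) * h2E
    have e2 : m10 + m11 * (ψ + s) - (m00 + m01 * (ψ + s)) * (ψ + s) =
        (m10 + m01) + ((m00 + m11) + s * m01) * (ψ + s) := by
      linear_combination (-m01) * hψ' - (m00 * (ψ + s)) * h2E
    rw [e1, e2]
    linear_combination h5 - s * (m01 - m10) * (m00 + m11) * h2E +
      (m10 + m01) * ((m00 + m11) + s * m01) * ψ * h2E + ((m00 + m11) + s * m01) ^ 2 * hψ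
  have hCmul : ∀ ψ : E, ∀ h h', C ψ h = 0 → C ψ h' = 0 → C ψ (h * h') = 0 := by
    intro ψ h h' e e'
    have e0 : ∀ i j, (r (h * h')).1 i j = (r h).1 i 0 * (r h').1 0 j + (r h).1 i 1 *
        (r h').1 1 j := by
      intro i j
      rw [map_mul]
      change ((r h).1 * (r h').1) i j = _
      rw [Matrix.mul_apply, Fin.sum_univ_two]
    simp only [C] at e e' ⊢
    rw [e0, e0, e0, e0]
    simp only [map_add, map_mul]
    linear_combination (algebraMap L E ((r h').1 0 0) + algebraMap L E ((r h').1 0 1) * ψ) * e +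
      (algebraMap L E ((r h).1 1 1) - algebraMap L E ((r h).1 0 1) * ψ) * e'
  have hCinv : ∀ ψ : E, ∀ h, C ψ h = 0 → C ψ h⁻¹ = 0 := by
    intro ψ h e
    have e0 : (r h⁻¹).1 = !![(r h).1 1 1, -(r h).1 0 1; -(r h).1 1 0, (r h).1 0 0] := by
      rw [map_inv, Matrix.SpecialLinearGroup.SL2_inv_expl]
      rfl
    simp only [C] at e ⊢
    rw [e0]
    simp only [Matrix.of_apply, Matrix.cons_val', Matrix.cons_val_zero, Matrix.cons_val_one,
      Matrix.cons_val_fin_one, map_neg]
    linear_combination (-1 : E) * e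
  have hor : (∀ h, C ψ h = 0) ∨ (∀ h, C (ψ + algebraMap L E t) h = 0) := by
    by_contra hno
    push Not at hno
    obtain ⟨⟨x, hx⟩, ⟨y, hy⟩⟩ := hno
    have hx' : C (ψ + algebraMap L E t) x = 0 := (mul_eq_zero.1 (hCC x)).resolve_left hx
    have hy' : C ψ y = 0 := (mul_eq_zero.1 (hCC y)).resolve_right hy
    rcases mul_eq_zero.1 (hCC (x * y)) with h | h
    · apply hx
      have := hCmul ψ _ _ h (hCinv ψ y hy')
      rwa [mul_inv_cancel_right] at this
    · apply hy
      have := hCmul _ _ _ (hCinv _ x hx') h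
      rwa [inv_mul_cancel_left] at this
  rcases hor with h | h
  · exact g_no_eig T g hgc hTg r htr E h2E ψ fun x => sub_eq_zero.1 (h x)
  · exact g_no_eig T g hgc hTg r htr E h2E _ fun x => sub_eq_zero.1 (h x)

theorem g_tra (b : ℕ) (Γ K F L : Type) [Group Γ] [Field K] [Field F] [Field L]
    [Algebra (ZMod 2) K] [Algebra (ZMod 2) F] [Algebra K F] [Algebra K L] [CharP L 2] (T : Γ → K)
    (ρ : Γ →* Matrix.SpecialLinearGroup (Fin 2) F) (g : Γ) (HBB : HG b Γ K F T ρ g)
    (ι : L →ₐ[K] F) (r : Γ →* Matrix.SpecialLinearGroup (Fin 2) L) (ht : T g ≠ 0)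
    (hcf : CF ι ρ r g) (hrg : (r g).1 = FrNC.cmp (algebraMap K L (T g)))
    (htr : ∀ h, (r h).1.trace = algebraMap K L (T h))
    (h₀ : Γ) (hn : (uu (algebraMap K L (T g)) (r h₀).1).norm ≠ 0) :
    Transcendental K (uu (algebraMap K L (T g)) (r h₀).1).im ∧
    IntermediateField.adjoin K {(uu (algebraMap K L (T g)) (r h₀).1).re,
      (uu (algebraMap K L (T g)) (r h₀).1).im} = ⊤ := by
  have hK2 : CharP K 2 := charP_of_injective_algebraMap (algebraMap (ZMod 2) K).injective 2
  let rm : Γ →* Matrix (Fin 2) (Fin 2) L :=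
    { toFun := fun h => (r h).1
      map_one' := by rw [map_one]; rfl
      map_mul' := fun x y => by rw [map_mul]; rfl }
  have hrm : ∀ h, rm h = (r h).1 := fun _ => rfl
  have H : CD T rm g h₀ :=
    { tr := htr
      cg := hrg
      tne := ht
      ene := by
        rw [← QuadraticAlgebra.algebraMap_norm_eq_mul_star]
        intro h0
        apply hn
        have h9 := congrArg QuadraticAlgebra.re h0
        simp only [QuadraticAlgebra.algebraMap_re, QuadraticAlgebra.re_zero] at h9
        exact h9 }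
  set t : L := algebraMap K L (T g) with htdef
  set x : L := (uu t (r h₀).1).re with hx
  set y : L := (uu t (r h₀).1).im with hy
  -- generation
  let E : IntermediateField K L := IntermediateField.adjoin K {x, y}
  have hxE : x ∈ E := IntermediateField.subset_adjoin K _ (by simp)
  have hyE : y ∈ E := IntermediateField.subset_adjoin K _ (by simp)
  have hKE : ∀ k : K, algebraMap K L k ∈ E := fun k => E.algebraMap_mem k
  let BE := BG E.toSubring t (hKE (T g))
  have hOm : uu t (r h₀).1 ∈ BE := ⟨hxE, hyE⟩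
  have hio : ∀ z : QA K (T g), io (L := L) (T g) z ∈ BE := fun z => ⟨hKE _, hKE _⟩
  have hz : ∀ h, zz t (r h).1 ∈ BE := by
    intro h
    have := H.z h
    rw [hrm] at this
    rw [← this]
    exact hio _
  have hu : ∀ h, uu t (r h).1 ∈ BE := by
    intro h
    have := H.u h
    rw [hrm, H.Om_val, hrm] at this
    rw [this]
    exact BE.mul_mem (hio _) hOm
  have hG : (⟨0, 1⟩ : QA L t) ∈ BE := ⟨E.zero_mem, E.one_mem⟩
  have hGs : star (⟨0, 1⟩ : QA L t) ∈ BE := by
    refine ⟨?_, ?_⟩
    · rw [QuadraticAlgebra.re_star]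
      exact E.add_mem E.zero_mem (E.mul_mem (hKE _) E.one_mem)
    · rw [QuadraticAlgebra.im_star]
      exact E.neg_mem E.one_mem
  have htop : E = ⊤ := by
    rw [eq_top_iff, ← hcf.gen]
    apply IntermediateField.adjoin_le_iff.2
    rintro _ ⟨h, i, j, rfl⟩
    have c1 : (⟨(r h).1 0 0, (r h).1 1 0⟩ : QA L t) ∈ BE := by
      rw [← zz_add_uu]
      exact BE.add_mem (hz h) (hu h)
    have c2 : (⟨(r h).1 0 1, (r h).1 1 1⟩ : QA L t) ∈ BE := by
      rw [← col2 H.sne]
      exact BE.add_mem (BE.mul_mem (hz h) hG) (BE.mul_mem hGs (hu h))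
    fin_cases i <;> fin_cases j
    · exact c1.1
    · exact c2.1
    · exact c1.2
    · exact c2.2
  refine ⟨?_, htop⟩
  -- transcendence
  intro hyalg
  have hyint : IsIntegral K y := isAlgebraic_iff_isIntegral.1 hyalg
  have hnorm : x * x + algebraMap K L (T g) * x * y - 1 * y * y = algebraMap K L (eK T g h₀) := by
    have h1 := H.e'
    rw [← QuadraticAlgebra.algebraMap_norm_eq_mul_star] at h1
    have h2 := congrArg QuadraticAlgebra.re h1
    simp only [QuadraticAlgebra.algebraMap_re] at h2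
    rw [← h2, QuadraticAlgebra.norm_def]
    rfl
  have hxint : IsIntegral K x := tra_int x y (T g) _ hyint hnorm
  have hal : Algebra.IsAlgebraic K L := by
    have h1 : Algebra.IsAlgebraic K E := by
      apply IntermediateField.isAlgebraic_adjoin
      intro z hz
      rcases hz with hz | hz
      · rw [hz]; exact hxint
      · rw [Set.mem_singleton_iff.1 hz]; exact hyint
    rw [htop] at h1
    refine ⟨fun z => ?_⟩
    have h2 := h1.isAlgebraic (⟨z, IntermediateField.mem_top⟩ : (⊤ : IntermediateField K L))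
    exact h2.algHom (⊤ : IntermediateField K L).val
  have hd := tra_deg ρ HBB.fracF ι r g hcf hal
  have : IsScalarTower (ZMod 2) K F := IsScalarTower.of_algebraMap_eq' (RingHom.ext_zmod _ _)
  have hadd := trdeg_add_eq (ZMod 2) K (A := F)
  have hF := HBB.trF
  have hK := HBB.trK
  rw [hF] at hadd
  have hfin : (3 * b : Cardinal) < Cardinal.aleph0 := by
    exact_mod_cast Cardinal.natCast_lt_aleph0 (n := 3 * b)
  have hf1 : Algebra.trdeg (ZMod 2) K < Cardinal.aleph0 :=
    lt_of_le_of_lt (by rw [← hK]; exact self_le_add_right _ _) hfin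
  have hf2 : Algebra.trdeg K F < Cardinal.aleph0 :=
    lt_of_le_of_lt hd (by exact_mod_cast Cardinal.natCast_lt_aleph0 (n := 2))
  obtain ⟨n1, hn1⟩ := Cardinal.lt_aleph0.1 hf1
  obtain ⟨n2, hn2⟩ := Cardinal.lt_aleph0.1 hf2
  rw [hn1, hn2] at hadd
  rw [hn1] at hK
  rw [hn2] at hd
  have q1 : n1 + n2 = 3 * b := by exact_mod_cast hadd
  have q2 : n1 + 3 = 3 * b := by exact_mod_cast hK
  have q3 : n2 ≤ 2 := by exact_mod_cast hd
  omega

end Pool.Agent.SuG
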