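import Pool.Agent.Lib.MP_305fdd_al.Su.G.Defs

/-!
# MP_305fdd_al, surface groups: the complement of `T g = 0`, the slice

Adapted from Fr/N/C/{p_irr, p_tra, p_reg, p_ext}.lean (class `HG` instead of `HB`).
-/

set_option autoImplicit false

namespace Pool.Agent.SuG

open Pool.Agent.FrN Pool.Agent.FrNC Pool.Agent.F2Ch Pool.Agent.F2RF Pool.Agent.F2TF Matrix

theorem g_reg (b : ℕ) (Γ L : Type) [Group Γ] [Group.FG Γ] [Field L] [Algebra (ZMod 2) L]
    (r : Γ →* Matrix.SpecialLinearGroup (Fin 2) L) (g : Γ) (t w : L) (hb1 : 1 ≤ b)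
    (hl : ∀ (κ : Type) [Field κ] [Finite κ] [Algebra (ZMod 2) κ]
      (s : Γ →* Matrix.SpecialLinearGroup (Fin 2) κ), (s g).1.trace ≠ 0 →
      Nat.card {s' : Γ →* Matrix.SpecialLinearGroup (Fin 2) (DualNumber κ) //
        ∀ g i j, TrivSqZeroExt.fst ((s' g).1 i j) = (s g).1 i j} ≤ Nat.card κ ^ (3 * b))
    (hg : (r g).1 = FrNC.cmp t) (hw : w ≠ 0)
    (hwi : w⁻¹ ∈ Algebra.adjoin (ZMod 2) {x | ∃ h i j, x = (r h).1 i j})
    (ht0 : t ≠ 0) (hti : t⁻¹ ∈ Zw r w) :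
    Reg (3 * b - 2) (Zw r w) := by
  intro m hm
  classical
  have hle : Algebra.adjoin (ZMod 2) {x | ∃ h i j, x = (r h).1 i j} ≤ Zw r w :=
    Algebra.adjoin_mono Set.subset_union_left
  let _ : Field (Zw r w ⧸ m) := Ideal.Quotient.field m
  have hft : Algebra.FiniteType (ZMod 2) (Zw r w) :=
    (Subalgebra.fg_iff_finiteType _).1 (Zw_fg r w)
  have hN : IsNoetherianRing (Zw r w) := Algebra.FiniteType.isNoetherianRing (ZMod 2) _
  have h1 : Algebra.FiniteType (ZMod 2) (Zw r w ⧸ m) := inferInstance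
  have h2 : Module.Finite (ZMod 2) (Zw r w ⧸ m) := finite_of_finite_type_of_isJacobsonRing _ _
  have h3 : Finite (Zw r w ⧸ m) := Module.finite_of_finite (ZMod 2)
  have h4 : CharP (Zw r w ⧸ m) 2 :=
    charP_of_injective_algebraMap (algebraMap (ZMod 2) (Zw r w ⧸ m)).injective 2
  have h5 : CharP (Zw r w) 2 :=
    charP_of_injective_algebraMap (algebraMap (ZMod 2) (Zw r w)).injective 2
  let _ := Fintype.ofFinite (Zw r w ⧸ m)
  obtain ⟨n, -, hn⟩ := FiniteField.card (Zw r w ⧸ m) 2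
  have hpow : ∀ z : Zw r w, z - z ^ 2 ^ (n : ℕ) ∈ m := by
    intro z
    rw [← Ideal.Quotient.eq_zero_iff_mem, map_sub, map_pow, ← hn, FiniteField.pow_card, sub_self]
  have hn2 : ∀ a ∈ m, a ^ 2 ^ (n : ℕ) ∈ m ^ 2 := by
    intro a ha
    have : 2 ≤ 2 ^ (n : ℕ) := by
      calc 2 = 2 ^ 1 := rfl
        _ ≤ 2 ^ (n : ℕ) := Nat.pow_le_pow_right (by norm_num) n.pos
    exact Ideal.pow_le_pow_right this (Ideal.pow_mem_pow ha _)
  have hadd : ∀ z w' : Zw r w, (z + w') ^ 2 ^ (n : ℕ) = z ^ 2 ^ (n : ℕ) + w' ^ 2 ^ (n : ℕ) :=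
    fun z w' => add_pow_char_pow z w' 2 n
  let d : Zw r w → m.Cotangent := fun z => m.toCotangent ⟨z - z ^ 2 ^ (n : ℕ), hpow z⟩
  have hd0 : ∀ a (ha : a ∈ m), d a = m.toCotangent ⟨a, ha⟩ := by
    intro a ha
    rw [Ideal.toCotangent_eq]
    change a - a ^ 2 ^ (n : ℕ) - a ∈ m ^ 2
    have : a - a ^ 2 ^ (n : ℕ) - a = -(a ^ 2 ^ (n : ℕ)) := by ring
    rw [this]
    exact neg_mem (hn2 a ha)
  have hV0 : Module.Finite (Zw r w) m := inferInstance
  have hV : Module.Finite (Zw r w) m.Cotangent :=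
    Module.Finite.of_surjective m.toCotangent m.toCotangent_surjective
  have hV2 : FiniteDimensional (Zw r w ⧸ m) m.Cotangent :=
    Module.Finite.of_restrictScalars_finite (Zw r w) (Zw r w ⧸ m) m.Cotangent
  have hsm : ∀ (z : Zw r w) (v : m.Cotangent), Ideal.Quotient.mk m z • v = z • v :=
    fun z v => rfl
  have hsurj : ∀ v : m.Cotangent, ∃ a : m, m.toCotangent a = v :=
    Ideal.toCotangent_surjective m
  have hgij : ∀ i j, (r g).1 i j = cmp t i j := fun i j => by rw [hg]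
  have hrank : Module.finrank (Zw r w ⧸ m) m.Cotangent + 2 ≤ 3 * b := by
    refine reg_core (Ideal.Quotient.mk m) d ?_ ?_ ?_ (rZ r w) g
      ⟨t, by
        have := mem_Zw r w g 1 1
        rw [hg] at this
        exact this⟩ ?_ ⟨w, Algebra.subset_adjoin (Or.inr rfl)⟩ ⟨w⁻¹, hle hwi⟩ ?_ ?_ ?_ b ?_
    · intro z w'
      change m.toCotangent _ = m.toCotangent _ + m.toCotangent _
      rw [← map_add]
      congr 1
      apply Subtype.ext
      change z + w' - (z + w') ^ 2 ^ (n : ℕ) = z - z ^ 2 ^ (n : ℕ) + (w' - w' ^ 2 ^ (n : ℕ))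
      rw [hadd]
      ring
    · intro z w'
      rw [hsm, hsm]
      change m.toCotangent _ = z • m.toCotangent _ + w' • m.toCotangent _
      rw [← map_smul, ← map_smul, ← map_add, Ideal.toCotangent_eq]
      change z * w' - (z * w') ^ 2 ^ (n : ℕ) - (z * (w' - w' ^ 2 ^ (n : ℕ)) +
        w' * (z - z ^ 2 ^ (n : ℕ))) ∈ m ^ 2
      have : z * w' - (z * w') ^ 2 ^ (n : ℕ) - (z * (w' - w' ^ 2 ^ (n : ℕ)) +
        w' * (z - z ^ 2 ^ (n : ℕ))) = -((z - z ^ 2 ^ (n : ℕ)) * (w' - w' ^ 2 ^ (n : ℕ))) := by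
        rw [mul_pow]
        ring
      rw [this, pow_two]
      exact neg_mem (Ideal.mul_mem_mul (hpow z) (hpow w'))
    · rw [eq_top_iff]
      intro v _
      obtain ⟨a, rfl⟩ := hsurj v
      exact Submodule.subset_span ⟨a.1, hd0 a.1 a.2⟩
    · ext1 i j
      apply Subtype.val_injective
      refine (hgij i j).trans ?_
      fin_cases i <;> fin_cases j <;> rfl
    · apply Subtype.val_injective
      exact mul_inv_cancel₀ hw
    · refine Zw_ind r w _ hle _ ?_ _ hwi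
      rintro _ ⟨h, i, j, rfl⟩
      exact Algebra.subset_adjoin ⟨h, i, j, rfl⟩
    · rw [eq_top_iff]
      rintro ⟨x, hx⟩ _
      refine Zw_ind r w _ le_rfl _ ?_ _ hx
      rintro _ (⟨h, i, j, rfl⟩ | hx)
      · exact Algebra.subset_adjoin (Or.inl ⟨h, i, j, rfl⟩)
      · rw [Set.mem_singleton_iff] at hx
        subst hx
        exact Algebra.subset_adjoin (Or.inr rfl)
    · refine hl (Zw r w ⧸ m) ((SpecialLinearGroup.map (Ideal.Quotient.mk m)).comp (rZ r w)) ?_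
      have e1 : (((SpecialLinearGroup.map (Ideal.Quotient.mk m)).comp (rZ r w)) g).1.trace =
          Ideal.Quotient.mk m (⟨(r g).1 0 0, mem_Zw r w g 0 0⟩ +
            ⟨(r g).1 1 1, mem_Zw r w g 1 1⟩) := by
        rw [Matrix.trace_fin_two, map_add]
        rfl
      rw [e1]
      intro h
      have h6 : (⟨(r g).1 0 0, mem_Zw r w g 0 0⟩ + ⟨(r g).1 1 1, mem_Zw r w g 1 1⟩ : Zw r w) *
          ⟨t⁻¹, hti⟩ = 1 := by
        apply Subtype.ext
        change ((r g).1 0 0 + (r g).1 1 1) * t⁻¹ = 1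
        rw [hgij, hgij]
        change (0 + t) * t⁻¹ = 1
        rw [zero_add, mul_inv_cancel₀ ht0]
      refine hm.ne_top ((Ideal.eq_top_iff_one m).2 ?_)
      rw [← h6]
      exact Ideal.mul_mem_right _ _ (Ideal.Quotient.eq_zero_iff_mem.1 h)
  have hNr : Module.finrank (Zw r w ⧸ m) m.Cotangent ≤ 3 * b - 2 := by omega
  let b0 := Module.finBasis (Zw r w ⧸ m) m.Cotangent
  choose lf hlf using hsurj
  let y : Fin (3 * b - 2) → Zw r w := fun i =>
    if h : i.1 < Module.finrank (Zw r w ⧸ m) m.Cotangent then (lf (b0 ⟨i.1, h⟩)).1 else 0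
  have hy : ∀ i, (lf (b0 i)).1 ∈ Ideal.span (Set.range y) := by
    intro i
    refine Ideal.subset_span ⟨⟨i.1, lt_of_lt_of_le i.2 hNr⟩, ?_⟩
    simp only [y]
    rw [dif_pos i.2]
  have hmle : m ≤ Ideal.span (Set.range y) ⊔ m • m := by
    intro a ha
    have e1 := b0.sum_repr (m.toCotangent ⟨a, ha⟩)
    choose c hc using fun i => Ideal.Quotient.mk_surjective
      (b0.repr (m.toCotangent ⟨a, ha⟩) i)
    have e2 : m.toCotangent (∑ i, c i • lf (b0 i)) = m.toCotangent ⟨a, ha⟩ := by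
      rw [← e1, map_sum]
      refine Finset.sum_congr rfl fun i _ => ?_
      rw [map_smul, hlf, ← hc, hsm]
    rw [Ideal.toCotangent_eq] at e2
    have e3 : a = (∑ i, c i • lf (b0 i) : m).1 - ((∑ i, c i • lf (b0 i) : m).1 - a) := by ring
    rw [e3]
    refine Submodule.sub_mem _ (Submodule.mem_sup_left ?_) (Submodule.mem_sup_right ?_)
    · have e4 : (∑ i, c i • lf (b0 i) : m).1 = ∑ i, c i * (lf (b0 i)).1 := by
        rw [← Submodule.subtype_apply, map_sum]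
        rfl
      rw [e4]
      exact Ideal.sum_mem _ fun i _ => Ideal.mul_mem_left _ _ (hy i)
    · rw [smul_eq_mul, ← pow_two]
      exact e2
  obtain ⟨s, hs1, hs2⟩ := Submodule.exists_sub_one_mem_and_smul_le_of_fg_of_le_sup
    (IsNoetherian.noetherian m) le_rfl hmle
  refine ⟨y, s, ?_, ?_, ?_⟩
  · intro i
    simp only [y]
    split_ifs with h
    · exact (lf _).2
    · exact zero_mem _
  · intro hs
    apply hm.ne_top
    rw [Ideal.eq_top_iff_one]
    have := sub_mem hs hs1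
    rwa [sub_sub_cancel] at this
  · intro a ha
    exact hs2 (Submodule.smul_mem_pointwise_smul a s m ha)

section

variable {Γ F : Type} [Group Γ] [Field F] (ρ : Γ →* Matrix.SpecialLinearGroup (Fin 2) F) (g : Γ)

/-- the inverse of the change of basis -/
private def Pi : Matrix (Fin 2) (Fin 2) F :=
  !![1, -((ρ g).1 0 0 / (ρ g).1 1 0); 0, ((ρ g).1 1 0)⁻¹]

variable {ρ g}

private theorem P_Pi (hc : (ρ g).1 1 0 ≠ 0) : Pm ρ g * Pi ρ g = 1 := by
  ext i j
  fin_cases i <;> fin_cases j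
  · simp [Pm, Pi, Matrix.mul_apply, Fin.sum_univ_two]
  · simp [Pm, Pi, Matrix.mul_apply, Fin.sum_univ_two]
    field_simp
    ring
  · simp [Pm, Pi, Matrix.mul_apply, Fin.sum_univ_two]
  · simp [Pm, Pi, Matrix.mul_apply, Fin.sum_univ_two]
    field_simp

private theorem Pi_P (hc : (ρ g).1 1 0 ≠ 0) : Pi ρ g * Pm ρ g = 1 :=
  mul_eq_one_comm.1 (P_Pi hc)

/-- the conjugate representation -/
private def Mc (ρ : Γ →* Matrix.SpecialLinearGroup (Fin 2) F) (g h : Γ) :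
    Matrix (Fin 2) (Fin 2) F := Pi ρ g * (ρ h).1 * Pm ρ g

private theorem Mc_one (hc : (ρ g).1 1 0 ≠ 0) : Mc ρ g 1 = 1 := by
  have h1 : (ρ 1).1 = 1 := by rw [map_one]; rfl
  rw [Mc, h1, mul_one, Pi_P hc]

private theorem Mc_mul (hc : (ρ g).1 1 0 ≠ 0) (h h' : Γ) :
    Mc ρ g (h * h') = Mc ρ g h * Mc ρ g h' := by
  have h1 : (ρ (h * h')).1 = (ρ h).1 * (ρ h').1 := by rw [map_mul]; rfl
  rw [Mc, Mc, Mc, h1]
  calc Pi ρ g * ((ρ h).1 * (ρ h').1) * Pm ρ g
      = Pi ρ g * (ρ h).1 * 1 * ((ρ h').1 * Pm ρ g) := by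
        simp only [mul_assoc, one_mul]
    _ = Pi ρ g * (ρ h).1 * (Pm ρ g * Pi ρ g) * ((ρ h').1 * Pm ρ g) := by rw [P_Pi hc]
    _ = _ := by simp only [mul_assoc]

private theorem Mc_det (hc : (ρ g).1 1 0 ≠ 0) (h : Γ) : (Mc ρ g h).det = 1 := by
  have h1 : (Pi ρ g).det * (Pm ρ g).det = 1 := by
    rw [← Matrix.det_mul, Pi_P hc, Matrix.det_one]
  have h2 : (ρ h).1.det = 1 := (ρ h).2
  rw [Mc, Matrix.det_mul, Matrix.det_mul, h2, mul_one, h1]

private theorem Mc_trace (hc : (ρ g).1 1 0 ≠ 0) (h : Γ) :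
    (Mc ρ g h).trace = (ρ h).1.trace := by
  rw [Mc, Matrix.trace_mul_comm, ← mul_assoc, P_Pi hc, one_mul]

private theorem P_Mc (hc : (ρ g).1 1 0 ≠ 0) (h : Γ) :
    Pm ρ g * Mc ρ g h = (ρ h).1 * Pm ρ g := by
  rw [Mc, ← mul_assoc, ← mul_assoc, P_Pi hc, one_mul]

private theorem P_cmp [CharP F 2] :
    Pm ρ g * FrNC.cmp (ρ g).1.trace = (ρ g).1 * Pm ρ g := by
  have h2 : (2 : F) = 0 := CharTwo.two_eq_zero
  have hdet : (ρ g).1 0 0 * (ρ g).1 1 1 - (ρ g).1 0 1 * (ρ g).1 1 0 = 1 := by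
    rw [← Matrix.det_fin_two]; exact (ρ g).2
  ext i j
  rw [Matrix.mul_apply, Matrix.mul_apply, Fin.sum_univ_two, Fin.sum_univ_two,
    Matrix.trace_fin_two]
  fin_cases i <;> fin_cases j
  · simp [Pm, FrNC.cmp]
  · simp [Pm, FrNC.cmp]
    linear_combination hdet + h2
  · simp [Pm, FrNC.cmp]
  · simp [Pm, FrNC.cmp]
    ring

private theorem Mc_g [CharP F 2] (hc : (ρ g).1 1 0 ≠ 0) :
    Mc ρ g g = FrNC.cmp (ρ g).1.trace := by
  rw [Mc, mul_assoc, ← P_cmp, ← mul_assoc, Pi_P hc, one_mul]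

end

section

variable {Γ K F : Type} [Group Γ] [Field K] [Field F] [Algebra K F]
  (ρ : Γ →* Matrix.SpecialLinearGroup (Fin 2) F) (g : Γ)

/-- the field generated by the entries -/
private def LL (K : Type) [Field K] [Algebra K F] (ρ : Γ →* Matrix.SpecialLinearGroup (Fin 2) F)
    (g : Γ) : IntermediateField K F :=
  IntermediateField.adjoin K {x | ∃ h i j, x = Mc ρ g h i j}

private theorem mem_LL (h : Γ) (i j : Fin 2) : Mc ρ g h i j ∈ LL K ρ g :=
  IntermediateField.subset_adjoin _ _ ⟨h, i, j, rfl⟩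

/-- the representation over the field `L` -/
private def rr (hc : (ρ g).1 1 0 ≠ 0) : Γ →* Matrix.SpecialLinearGroup (Fin 2) (LL K ρ g) where
  toFun h := ⟨Matrix.of fun i j => ⟨Mc ρ g h i j, mem_LL ρ g h i j⟩, by
    apply Subtype.ext
    rw [Matrix.det_fin_two]
    have h1 := Mc_det hc h
    rw [Matrix.det_fin_two] at h1
    exact h1⟩
  map_one' := by
    apply Subtype.ext
    ext i j
    change Mc ρ g 1 i j = (((1 : Matrix (Fin 2) (Fin 2) (LL K ρ g)) i j : LL K ρ g) : F)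
    rw [Mc_one hc, Matrix.one_apply, Matrix.one_apply]
    split_ifs <;> rfl
  map_mul' h h' := by
    apply Subtype.ext
    ext i j
    change Mc ρ g (h * h') i j = ((((Matrix.of fun i j => (⟨Mc ρ g h i j, mem_LL ρ g h i j⟩ :
      LL K ρ g)) * (Matrix.of fun i j => (⟨Mc ρ g h' i j, mem_LL ρ g h' i j⟩ : LL K ρ g)) :
        Matrix (Fin 2) (Fin 2) (LL K ρ g)) i j : LL K ρ g) : F)
    rw [Mc_mul hc, Matrix.mul_apply, Matrix.mul_apply, Fin.sum_univ_two, Fin.sum_univ_two]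
    rfl

private theorem rr_coe (hc : (ρ g).1 1 0 ≠ 0) (h : Γ) (i j : Fin 2) :
    (((rr (K := K) ρ g hc h).1 i j : LL K ρ g) : F) = Mc ρ g h i j := rfl

end

theorem g_ext (Γ K F : Type) [Group Γ] [Field K] [Field F] [Algebra (ZMod 2) K]
    [Algebra (ZMod 2) F] [Algebra K F] (T : Γ → K)
    (ρ : Γ →* Matrix.SpecialLinearGroup (Fin 2) F)
    (hBtr : ∀ h, (ρ h).1.trace = algebraMap K F (T h)) (g : Γ) (hc : (ρ g).1 1 0 ≠ 0) :
    ∃ (L : Type) (_ : Field L) (_ : Algebra (ZMod 2) L) (_ : Algebra K L) (ι : L →ₐ[K] F)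
      (r : Γ →* Matrix.SpecialLinearGroup (Fin 2) L), CF ι ρ r g ∧
      (r g).1 = FrNC.cmp (algebraMap K L (T g)) ∧ ∀ h, (r h).1.trace = algebraMap K L (T h) := by
  have hcF : CharP F 2 := charP_of_injective_algebraMap (algebraMap (ZMod 2) F).injective 2
  have hmap : ∀ h, (rr (K := K) ρ g hc h).1.map (LL K ρ g).val = Mc ρ g h := by
    intro h
    ext i j
    rfl
  have htr : ∀ h, (rr (K := K) ρ g hc h).1.trace = algebraMap K (LL K ρ g) (T h) := by
    intro h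
    apply Subtype.ext
    have h1 : (((rr (K := K) ρ g hc h).1.trace : LL K ρ g) : F) = (Mc ρ g h).trace := by
      rw [Matrix.trace_fin_two, Matrix.trace_fin_two]
      rfl
    rw [h1, Mc_trace hc, hBtr]
    rfl
  refine ⟨LL K ρ g, inferInstance,
    ((algebraMap K (LL K ρ g)).comp (algebraMap (ZMod 2) K)).toAlgebra, inferInstance,
    (LL K ρ g).val, rr ρ g hc, ⟨hc, ?_, ?_⟩, ?_, htr⟩
  · intro h
    have h1 := hmap h
    rw [← P_Mc hc]
    exact congrArg _ h1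
  · apply IntermediateField.lift_injective (LL K ρ g)
    rw [IntermediateField.lift_adjoin, IntermediateField.lift_top]
    have h1 : (Subtype.val '' {x : LL K ρ g | ∃ h i j, x = (rr (K := K) ρ g hc h).1 i j}) =
        {x | ∃ h i j, x = Mc ρ g h i j} := by
      ext x
      constructor
      · rintro ⟨y, ⟨h, i, j, rfl⟩, rfl⟩
        exact ⟨h, i, j, rfl⟩
      · rintro ⟨h, i, j, rfl⟩
        exact ⟨_, ⟨h, i, j, rfl⟩, rfl⟩
    rw [h1]
    rfl
  · have h1 := Mc_g (ρ := ρ) (g := g) hc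
    rw [hBtr] at h1
    ext i j
    change Mc ρ g g i j = ((FrNC.cmp (algebraMap K (LL K ρ g) (T g)) i j : LL K ρ g) : F)
    rw [h1]
    fin_cases i <;> fin_cases j <;> rfl

end Pool.Agent.SuG
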