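import Pool.Agent.Lib.MP_305fdd_al.Su.G.Pts
import Pool.Agent.Lib.MP_305fdd_al.Su.G.Irr
import Pool.Agent.Lib.MP_305fdd_al.Su.G.Sl

/-!
# MP_305fdd_al, surface groups: `I_CD` for the class `HG`

Adapted from Fr/N/C/Asm.lean.
-/

set_option autoImplicit false

namespace Pool.Agent.SuG

open QuadraticAlgebra Pool.Agent.FrN Pool.Agent.FrNC Pool.Agent.F2Ch Pool.Agent.F2RF
  Pool.Agent.F2TF

/-- the ring of traces is finitely generated -/
theorem HG.BB_fg {b : ℕ} {Γ K F : Type} [Group Γ] [Field K] [Field F] [Algebra (ZMod 2) K]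
    [Algebra (ZMod 2) F] [Algebra K F] {T : Γ → K}
    {ρ : Γ →* Matrix.SpecialLinearGroup (Fin 2) F} {g : Γ} (H : HG b Γ K F T ρ g) :
    (BB 2 T).FG := by
  have := H.fg
  have hp : Pool.Agent.CC.PChar (F := ZMod 2) (1 : Γ →* (ZMod 2)ˣ) T :=
    { one := by
        apply (algebraMap K F).injective
        rw [← H.tr, map_one, map_ofNat]
        simp
      comm := fun g h => by
        apply (algebraMap K F).injective
        rw [← H.tr, ← H.tr, map_mul, map_mul]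
        exact Matrix.trace_mul_comm (ρ g).1 (ρ h).1
      rel := fun g h => by
        rw [MonoidHom.one_apply, Units.val_one, map_one, one_mul]
        apply (algebraMap K F).injective
        rw [map_add, map_mul, ← H.tr, ← H.tr, ← H.tr, ← H.tr, map_mul, map_mul, map_inv]
        exact tr_rel _ _ }
  exact hp.fg

set_option maxHeartbeats 4000000 in
theorem p_CDG (hdim : FrNC.S_dim) (hpbx : S_pbx) (hzet : S_zet) (hlin : S_lin) (hpvt : S_pvt)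
    (hfgz : S_fgz) (hloc : S_loc) (hB : I_B) (hnuc : I_nucf) : I_CDG := by
  intro b Γ K F _ _ _ _ _ _ T ρ g hb HB Φ hΦL hΦ hTg
  have hchK : CharP K 2 := charP_of_injective_algebraMap (algebraMap (ZMod 2) K).injective 2
  obtain ⟨d, tt, π, g₀, hMB, hg₀, hΦf⟩ := hΦL
  have hBfg : (BB 2 T).FG := HB.BB_fg
  have htrK : Algebra.trdeg (ZMod 2) K = ((3 * b - 3 : ℕ) : Cardinal) := by
    have h1 := HB.trK
    have h2 : Algebra.trdeg (ZMod 2) K < Cardinal.aleph0 := by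
      refine lt_of_le_of_lt (self_le_add_right _ 3) ?_
      rw [h1]
      have : (3 * (b : Cardinal)) = ((3 * b : ℕ) : Cardinal) := by push_cast; rfl
      rw [this]
      exact Cardinal.natCast_lt_aleph0
    obtain ⟨n, hn⟩ := Cardinal.lt_aleph0.1 h2
    rw [hn] at h1 ⊢
    have h3 : n + 3 = 3 * b := by exact_mod_cast h1
    have h4 : n = 3 * b - 3 := by omega
    rw [h4]
  have hd : d = 3 * b - 3 := hdim 2 K (BB 2 T) hBfg HB.fracK (3 * b - 3) d tt π hMB htrK |>.trans rfl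
  have hd1 : d + 1 = 3 * b - 2 := by omega
  have hcne' := g_cne b Γ K F T ρ g HB hTg
  obtain ⟨L, _, _, _, ι, r, hCF, hrg, hrt⟩ := g_ext Γ K F T ρ HB.tr g hcne'
  have hchL : CharP L 2 := charP_of_injective_algebraMap (algebraMap (ZMod 2) L).injective 2
  obtain ⟨h₀, hh₀⟩ := g_irr Γ K L T r g HB.com hTg hrt
  obtain ⟨htr, hgen⟩ := g_tra b Γ K F L T ρ g HB ι r hTg hCF hrg hrt h₀ hh₀
  have HCD : CD T (rMat r) g h₀ :=
    { tr := hrt
      cg := hrg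
      tne := hTg
      ene := by
        rw [← QuadraticAlgebra.algebraMap_norm_eq_mul_star]
        intro h
        exact hh₀ (al_inj (by rw [map_zero]; exact h)) }
  have HL : LO (T g) (eK T g h₀) HCD.Om :=
    ⟨hTg, HCD.e0, HCD.e', hlin K L (T g) (eK T g h₀) hTg HCD.e0 HCD.Om HCD.e' htr⟩
  obtain ⟨Ψ, t', π', hMB', hΨL, hΨ, hk, hl⟩ := exists_Psi hpbx HL htr hgen hMB hg₀ hΦf hΦ
  have hΦne := Phi_ne hMB hg₀ hΦf
  -- the slices
  have key : ∀ y z : BB 2 T, y ≠ 0 → y = bT 2 T g * z →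
      ∃ (N : Submodule (Bi (BB 2 T) (y : K)) K)
        (OmZ : Submodule (Zw r (algebraMap K L (y : K))⁻¹) L),
        IsOm (Bi (BB 2 T) (y : K)) Φ N ∧ N.FG ∧ (∀ k, k ∈ N ↔ algebraMap K L k ∈ OmZ) ∧
        Stb Ψ OmZ ∧ OmZ.FG ∧ (∀ η ∈ OmZ, ∃ (e : ℕ) (k : K), Ψ^[e] η = algebraMap K L k) ∧
        ∀ m : ℕ, Cg m (PF hΨ OmZ : PowerSeries (ZMod 2))
          ((zu 2 (Zw r (algebraMap K L (y : K))⁻¹) m ^ sgn (d + 1) :
            (PowerSeries (ZMod 2))ˣ) : PowerSeries (ZMod 2)) := by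
    intro y z hy hyz
    have hyK : (y : K) ≠ 0 := fun h => hy (Subtype.ext h)
    have hyL : algebraMap K L (y : K) ≠ 0 := fun h =>
      hyK ((algebraMap K L).injective (by rw [h, map_zero]))
    have hyz' : (y : K) = T g * z := congrArg Subtype.val hyz
    obtain ⟨hZfg, hZfrc⟩ := hfgz Γ K L T r HB.fg HB.fracK hrt hCF.gen (algebraMap K L (y : K))⁻¹
    have hT : ∀ h, T h ∈ Bi (BB 2 T) (y : K) := fun h =>
      BB_le_Bi _ (Algebra.subset_adjoin ⟨h, rfl⟩)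
    have hti : (T g)⁻¹ ∈ Bi (BB 2 T) (y : K) := by
      have h1 : (T g)⁻¹ = z * (y : K)⁻¹ := by
        rw [hyz']
        have hz : (z : K) ≠ 0 := fun h => hyK (by rw [hyz', h, mul_zero])
        field_simp
      rw [h1]
      exact Subalgebra.mul_mem _ (BB_le_Bi _ z.2) (Bi_inv_mem _)
    have hsl : Slice Φ Ψ (Bi (BB 2 T) (y : K)) (Zw r (algebraMap K L (y : K))⁻¹) (Vs HL) (pr HL) := by
      refine slice_ex HCD HL (Bi (BB 2 T) (y : K)) hT hti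
        ({x | ∃ h i j, x = (r h).1 i j} ∪ {(algebraMap K L (y : K))⁻¹}) _ rfl ?_ ?_ ?_ ?_ hZfrc
        hΦ hΦne hΨ hk hl
      · rintro x (⟨h, i, j, rfl⟩ | rfl)
        · exact Or.inl ⟨h, i, j, rfl⟩
        · exact Or.inr ⟨_, Bi_inv_mem _, by rw [map_inv₀]⟩
      · exact fun h i j => mem_Zw r _ h i j
      · exact fun b hb => Bi_mem_Zw hrt _ b hb
      · intro k
        obtain ⟨a, ha, c, hc, hc0, hac⟩ := HB.fracK k
        exact ⟨a, BB_le_Bi _ ha, c, BB_le_Bi _ hc, hc0, hac⟩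
    have hreg' : Reg (d + 1) (Zw r (algebraMap K L (y : K))⁻¹) := by
      rw [hd1]
      have := HB.fg
      refine g_reg b Γ L r g (algebraMap K L (T g)) (algebraMap K L (y : K))⁻¹ (by omega)
        (fun κ _ _ _ s => HB.lifts κ s) hrg (inv_ne_zero hyL) ?_ ?_ ?_
      · rw [inv_inv]
        exact BB_mem_ent hrt _ y.2
      · exact fun h => hTg ((map_eq_zero (algebraMap K L)).1 h)
      · have h1 := Bi_mem_Zw hrt (y : K) _ hti
        rwa [map_inv₀] at h1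
    obtain ⟨hh, OmZ, hOm, hOmfg, hPF⟩ := hB 2 L (Zw r (algebraMap K L (y : K))⁻¹) hZfg hZfrc (d + 1)
      hreg' t' π' hMB' Ψ hΨL
    have hft : Algebra.FiniteType (ZMod 2) (Zw r (algebraMap K L (y : K))⁻¹) :=
      (Subalgebra.fg_iff_finiteType _).1 hZfg
    have hnoe : IsNoetherianRing (Zw r (algebraMap K L (y : K))⁻¹) :=
      Algebra.FiniteType.isNoetherianRing (ZMod 2) _
    obtain ⟨N, hN1, hN2, hN3, hN4⟩ := slice_main hsl OmZ hOm hOmfg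
    refine ⟨N, OmZ, hN2, hN3, hN1, hOm.stb, hOmfg, fun η hη => ?_, hPF⟩
    obtain ⟨e₀, he⟩ := hN4 η hη
    obtain ⟨k, -, hk⟩ := he e₀ le_rfl
    exact ⟨e₀, k, hk⟩
  have keyN : ∀ y : K, ∃ N : Submodule (Bi (BB 2 T) y) K,
      ∀ (yy zz : BB 2 T) (hyy : (yy : K) = y), yy ≠ 0 → yy = bT 2 T g * zz →
      ∃ OmZ : Submodule (Zw r (algebraMap K L y)⁻¹) L,
        IsOm (Bi (BB 2 T) y) Φ N ∧ N.FG ∧ (∀ k, k ∈ N ↔ algebraMap K L k ∈ OmZ) ∧
        Stb Ψ OmZ ∧ OmZ.FG ∧ (∀ η ∈ OmZ, ∃ (e : ℕ) (k : K), Ψ^[e] η = algebraMap K L k) ∧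
        ∀ m : ℕ, Cg m (PF hΨ OmZ : PowerSeries (ZMod 2))
          ((zu 2 (Zw r (algebraMap K L y)⁻¹) m ^ sgn (d + 1) :
            (PowerSeries (ZMod 2))ˣ) : PowerSeries (ZMod 2)) := by
    intro y
    by_cases hy : ∃ yy zz : BB 2 T, (yy : K) = y ∧ yy ≠ 0 ∧ yy = bT 2 T g * zz
    · obtain ⟨yy, zz, rfl, h1, h2⟩ := hy
      obtain ⟨N, OmZ, hN⟩ := key yy zz h1 h2
      exact ⟨N, fun _ _ _ _ _ => ⟨OmZ, hN⟩⟩
    · exact ⟨⊥, fun yy zz h1 h2 h3 => (hy ⟨yy, zz, h1, h2, h3⟩).elim⟩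
  choose N hN using keyN
  obtain ⟨Ng, S, hNg1, hNg2, hS1, hS2, hmin, hNgl⟩ := hloc K (BB 2 T) Φ hΦ (bT 2 T g)
    (fun h => hTg (congrArg Subtype.val h)) N (fun y z hy hyz => by
      obtain ⟨OmZ, h1, h2, -⟩ := hN y y z rfl hy hyz
      exact ⟨h1, h2⟩)
  refine ⟨Ng, S, hNg1, hNg2, hS1, hS2, hmin, ?_⟩
  rintro y hy ⟨z, hz⟩
  have hyz : y = bT 2 T g * z := Subtype.ext hz
  have hyK : (y : K) ≠ 0 := fun h => hy (Subtype.ext h)
  obtain ⟨OmZ, h1, h2, h3, h4, h5, h6, h7⟩ := hN y y z rfl hy hyz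
  obtain ⟨hZfg, hZfrc⟩ := hfgz Γ K L T r HB.fg HB.fracK hrt hCF.gen (algebraMap K L (y : K))⁻¹
  have hft : Algebra.FiniteType (ZMod 2) (Zw r (algebraMap K L (y : K))⁻¹) :=
    (Subalgebra.fg_iff_finiteType _).1 hZfg
  obtain ⟨h8, h9⟩ := hpvt K L Φ Ψ hΦ hΨ hk ((loc y Ng).restrictScalars (ZMod 2))
    (OmZ.restrictScalars (ZMod 2)) (fun k => (hNgl y z hy hyz k).trans (h3 k)) h4 h6
  have hnV : ∃ W, Nuc (toEnd hΨ) (OmZ.restrictScalars (ZMod 2)) W := by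
    have := hnuc 2 L (Zw r (algebraMap K L (y : K))⁻¹) hZfg Ψ hΨ OmZ h4 h5 1 one_ne_zero
    rwa [loc_one] at this
  refine ⟨h9 hnV, ?_⟩
  obtain ⟨f, s, hLD, hfc, hfk⟩ := hzet (Zw r (algebraMap K L (y : K))⁻¹)
    ⟨(r g).1 1 1, mem_Zw r _ g 1 1⟩ (d + 1)
  refine ⟨f, s, hLD, ?_, fun k hk1 => ?_⟩
  · change PV (toEnd hΦ) ((loc y Ng).restrictScalars (ZMod 2)) = _
    rw [h8]
    refine Units.ext (PowerSeries.ext fun n => ?_)
    have e1 := h7 n n le_rfl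
    have e2 := hfc n n le_rfl
    rw [e2]
    exact e1
  · have e1 := g_cb b Γ K F L T ρ g HB ι r hCF hrg hrt y hyK ⟨z, hz⟩ k hk1
    have e2 := hfk k hk1
    rw [sgn_eq b (d + 1) (by omega) hd1] at e2
    refine ⟨(Nat.card {ζ : Zw r (algebraMap K L (y : K))⁻¹ →ₐ[ZMod 2] GaloisField 2 k //
        Sp (ζ ⟨(r g).1 1 1, mem_Zw r _ g 1 1⟩)} : ℤ) +
      Nat.card {ζ : Zw r (algebraMap K L (y : K))⁻¹ →ₐ[ZMod 2] GaloisField 2 k //
        ¬ Sp (ζ ⟨(r g).1 1 1, mem_Zw r _ g 1 1⟩)}, ?_⟩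
    rw [e1, e2]
    ring

/-- `I_CD` for the class `HG` -/
theorem t_CDG : I_CDG :=
  p_CDG FrNC.p_dim FrNC.p_pbx FrNC.p_zet FrNC.p_lin FrNC.p_pvt FrNC.p_fgz FrNC.p_loc FrB.t_B
    FrNA.t_nucf

end Pool.Agent.SuG
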