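import Pool.Agent.Lib.MP_305fdd_al.Fr.C.Final

/-!
# MP_305fdd_al, surface groups: block COUNT with one more element

The number of the representations at which some safe element vanishes AND the trace of an element
`γ` of a non-abelian vertex group vanishes is divisible by `q ^ 2`.
-/

set_option autoImplicit false

namespace Pool.Agent.SuG

open Pool.Agent.FrS Pool.Agent.FrC

/-- inclusion and exclusion modulo `N`, only for sets of indices which contain a good one -/
theorem incl_excl' {R ι : Type*} [Finite R] (N : ℕ) (E : ι → R → Prop) (A : ι → Prop)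
    (h : ∀ T : Finset ι, (∃ i ∈ T, A i) → N ∣ Nat.card {ρ // ∀ i ∈ T, E i ρ}) (s : Finset ι)
    (hs : ∀ i ∈ s, A i) :
    ∀ T : Finset ι, N ∣ Nat.card {ρ // (∀ i ∈ T, E i ρ) ∧ ∃ i ∈ s, E i ρ} := by
  classical
  have := Fintype.ofFinite R
  induction s using Finset.induction_on with
  | empty =>
    intro T
    have : Nat.card {ρ : R // (∀ i ∈ T, E i ρ) ∧ ∃ i ∈ (∅ : Finset ι), E i ρ} = 0 := by
      rw [Nat.card_eq_zero]
      left
      constructor
      rintro ⟨ρ, _, i, hi, _⟩
      exact absurd hi (Finset.notMem_empty i)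
    rw [this]; exact dvd_zero _
  | insert a s ha ih =>
    intro T
    have ih' := ih fun i hi => hs i (Finset.mem_insert_of_mem hi)
    have h1 := h (insert a T) ⟨a, Finset.mem_insert_self a T, hs a (Finset.mem_insert_self a s)⟩
    have h2 := ih' T
    have h3 := ih' (insert a T)
    rw [Nat.card_eq_fintype_card, Fintype.card_subtype] at h1 h2 h3 ⊢
    have e1 : (Finset.univ.filter fun ρ : R => (∀ i ∈ T, E i ρ) ∧ ∃ i ∈ insert a s, E i ρ) =
        (Finset.univ.filter fun ρ : R => ∀ i ∈ insert a T, E i ρ) ∪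
          (Finset.univ.filter fun ρ : R => (∀ i ∈ T, E i ρ) ∧ ∃ i ∈ s, E i ρ) := by
      ext ρ
      simp only [Finset.mem_filter, Finset.mem_univ, true_and, Finset.mem_union,
        Finset.exists_mem_insert, Finset.forall_mem_insert]
      tauto
    have e2 : (Finset.univ.filter fun ρ : R => (∀ i ∈ insert a T, E i ρ) ∧ ∃ i ∈ s, E i ρ) =
        (Finset.univ.filter fun ρ : R => ∀ i ∈ insert a T, E i ρ) ∩
          (Finset.univ.filter fun ρ : R => (∀ i ∈ T, E i ρ) ∧ ∃ i ∈ s, E i ρ) := by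
      ext ρ
      simp only [Finset.mem_filter, Finset.mem_univ, true_and, Finset.mem_inter,
        Finset.forall_mem_insert]
      tauto
    rw [e1]
    rw [e2] at h3
    have h4 := Finset.card_union_add_card_inter
      (Finset.univ.filter fun ρ : R => ∀ i ∈ insert a T, E i ρ)
      (Finset.univ.filter fun ρ : R => (∀ i ∈ T, E i ρ) ∧ ∃ i ∈ s, E i ρ)
    exact (Nat.dvd_add_left h3).mp (h4 ▸ Dvd.dvd.add h1 h2)

section

variable {Γ : Type} [Group Γ] {S : GG Γ} {F : Type} [Field F] [Algebra (ZMod 2) F] [Finite F]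

/-- the elements: one more element `γ` -/
def gO {Γ : Type} [Group Γ] {S : GG Γ} {E₀ : Set S.E} (g : S.E → Γ) (γ : Γ) : Option E₀ → Γ
  | none => γ
  | some e => g e.1

/-- the conditions: `T γ = 0` for the additional element -/
def DO {Γ : Type} [Group Γ] {S : GG Γ} {F : Type} [Field F] {E₀ : Set S.E} (D : S.E → F → Prop) :
    Option E₀ → F → Prop
  | none => fun t => t = 0
  | some e => D e.1

/-- from safe edges to one-edge splittings, with one more element -/
theorem safeO (hU : S.UP) (hfg : ∀ v, (S.G v).FG)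
    (hB : ∀ (A : Type) [Group A] (f : A →* Γ), (∃ x y, f x * f y ≠ f y * f x) → B2 A)
    {E₀ : Set S.E} {g : S.E → Γ} {D : S.E → F → Prop}
    (hs : ∀ e ∈ E₀, SafeE S F e (g e) (D e)) {γ : Γ} {v₀ : S.V} (hv₀ : S.NA v₀)
    (hγ : γ ∈ S.G v₀) (i : E₀) :
    Safe (F := F) (gO (E₀ := E₀) g γ) (DO (E₀ := E₀) D) (some i) := by
  obtain ⟨e, he⟩ := i
  have hreach : ∀ w, Rch (del S e) (S.a e) w ∨ Rch (del S e) (S.b e) w := fun w =>
    reach e (hU.gen (S.a e) w 1)
  have hfg' : ∀ v, ((del S e).G v).FG := hfg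
  have hmem : ∀ j : Option E₀, ∃ w, gO (E₀ := E₀) g γ j ∈ S.G w := by
    rintro (_ | j)
    · exact ⟨v₀, hγ⟩
    · rcases (hs j.1 j.2).mem with h | h
      · exact ⟨_, h⟩
      · exact ⟨_, h⟩
  have hcyc : ∀ w : S.V, (∃ x, S.G w = Subgroup.zpowers x) → w ≠ v₀ := by
    rintro w ⟨x, hx⟩ rfl
    apply hv₀
    intro y hy z hz
    rw [hx] at hy hz
    obtain ⟨i, rfl⟩ := hy
    obtain ⟨j, rfl⟩ := hz
    exact zpow_mul_comm x i j
  cases hs e he with
  | edge hC hD ha hb =>
    have hzm : g e ∈ S.C e := by rw [hC]; exact Subgroup.mem_zpowers _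
    by_cases hcon : Rch (del S e) (S.a e) (S.b e)
    · obtain ⟨P⟩ := paths (del S e) (S.a e)
      refine Safe.hn
        { A := cl (del S e) (S.a e)
          finA := fin_cl hfg' _
          iA := iCl (del S e) (S.a e)
          s := stl e P
          w₁ := zA hzm
          w₂ := zB hzm P hcon
          hw := stl_conj hzm P hcon
          hz := by rw [iA_zA]; exact IsConj.refl _
          univ := fun α x hx => hn_univ hU hcon hC hzm P α x hx
          hB := b2_cl hB ha } hD ?_
      intro j _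
      have hr : ∀ w, Rch (del S e) (S.a e) w := fun w =>
        (hreach w).elim id fun h => hcon.trans h
      obtain ⟨w, hw⟩ := hmem j
      exact conj_cl (hr w) hw
    · refine Safe.am
        { A := cl (del S e) (S.a e)
          C := cl (del S e) (S.b e)
          finA := fin_cl hfg' _
          finC := fin_cl hfg' _
          iA := iCl (del S e) (S.a e)
          iC := iCb S e
          a := zA hzm
          c := zC hzm
          hac := zAC hzm
          hz := by rw [iA_zA]; exact IsConj.refl _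
          univ := fun α γ h => am_univ hU hcon hC hzm α γ h
          hA := (b2_cl hB ha).exists_char _
          hC := (b2_cl hB hb).exists_char _ } hD ?_
      intro j _
      obtain ⟨w, hw⟩ := hmem j
      exact (hreach w).imp (fun h => conj_cl h hw) (fun h => conj_cb h hw)
  | rootb m hne hleaf hG hinf hC hD ha =>
    have hzm : S.s e * g e ^ m * (S.s e)⁻¹ ∈ S.C e := by rw [hC]; exact Subgroup.mem_zpowers _
    have hl : ∀ e' : (del S e).E, (del S e).a e' ≠ S.b e ∧ (del S e).b e' ≠ S.b e := fun e' =>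
      ⟨fun h => e'.2 (hleaf e'.1 (Or.inl h)), fun h => e'.2 (hleaf e'.1 (Or.inr h))⟩
    have hcon : ¬ Rch (del S e) (S.a e) (S.b e) := fun h =>
      hne (leaf_rch (S := del S e) hl h.symm)
    have hgm : g e ∈ S.G (S.b e) := by rw [hG]; exact Subgroup.mem_zpowers _
    obtain ⟨l1, l2⟩ := leaf_hom (S := del S e) hl hG hinf hgm (Q := S2 F)
    set βc : cl (del S e) (S.b e) :=
      ⟨PG.vx (del S e) (S.b e) ⟨g e, hgm⟩, PPth.vx _ _⟩ with hβc
    have hc : zC hzm = βc ^ m := by
      apply Subtype.ext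
      change PG.vx (del S e) (S.b e) _ = (PG.vx (del S e) (S.b e) ⟨g e, hgm⟩) ^ m
      rw [← map_pow]
      congr 1
      apply Subtype.ext
      change (S.s e)⁻¹ * (S.s e * g e ^ m * (S.s e)⁻¹) * S.s e = g e ^ m
      group
    have hib : iCb S e βc = S.s e * g e * (S.s e)⁻¹ := by
      rw [iCb_apply]
      change S.s e * PG.nat (del S e) (PG.vx (del S e) (S.b e) ⟨g e, hgm⟩) * (S.s e)⁻¹ = _
      rw [PG.nat_vx]
    refine Safe.rt
      { A := cl (del S e) (S.a e)
        finA := fin_cl hfg' _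
        iA := iCl (del S e) (S.a e)
        m := m
        a := zA hzm
        b := S.s e * g e * (S.s e)⁻¹
        hab := by rw [iA_zA, ← hib, ← map_pow, ← hc, ← zAC hzm, iA_zA]
        hz := (isConj_iff.mpr ⟨S.s e, rfl⟩).symm
        univ := ?_
        hA := (b2_cl hB ha).exists_char _ } hD ?_
    · intro α x hx
      obtain ⟨γ, hγ⟩ := l1 x
      have h1 : α (zA hzm) = γ (zC hzm) := by rw [hx, hc, map_pow, hγ]
      obtain ⟨ρ, ⟨h2, h3⟩, h4⟩ := am_univ hU hcon hC hzm α γ h1
      refine ⟨ρ, ⟨h2, ?_⟩, ?_⟩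
      · rw [← hib, ← MonoidHom.comp_apply, h3, hγ]
      · rintro ρ' ⟨h5, h6⟩
        refine h4 ρ' ⟨h5, l2 _ _ ?_⟩
        rw [hγ]
        change ρ' (iCb S e βc) = x
        rw [hib, h6]
    · intro j hj
      have hr : ∀ w, w ≠ S.b e → Rch (del S e) (S.a e) w := fun w hw =>
        (hreach w).elim id fun h => absurd (leaf_rch (S := del S e) hl h) hw
      rcases j with _ | j
      · exact conj_cl (hr v₀ (hcyc _ ⟨_, hG⟩).symm) hγ
      have hje : j.1 ≠ e := fun h => hj (congrArg some (Subtype.ext h))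
      rcases (hs j.1 j.2).mem with hm | hm
      · exact conj_cl (hr _ fun h => hje (hleaf j.1 (Or.inl h))) hm
      · exact conj_cl (hr _ fun h => hje (hleaf j.1 (Or.inr h))) hm
  | roota m hne hleaf hG hinf hC hD hb =>
    have hzm : g e ^ m ∈ S.C e := by rw [hC]; exact Subgroup.mem_zpowers _
    have hl : ∀ e' : (del S e).E, (del S e).a e' ≠ S.a e ∧ (del S e).b e' ≠ S.a e := fun e' =>
      ⟨fun h => e'.2 (hleaf e'.1 (Or.inl h)), fun h => e'.2 (hleaf e'.1 (Or.inr h))⟩
    have hcon : ¬ Rch (del S e) (S.a e) (S.b e) := fun h =>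
      hne (leaf_rch (S := del S e) hl h).symm
    have hgm : g e ∈ S.G (S.a e) := by rw [hG]; exact Subgroup.mem_zpowers _
    obtain ⟨l1, l2⟩ := leaf_hom (S := del S e) hl hG hinf hgm (Q := S2 F)
    set βc : cl (del S e) (S.a e) :=
      ⟨PG.vx (del S e) (S.a e) ⟨g e, hgm⟩, PPth.vx _ _⟩ with hβc
    have hc : zA hzm = βc ^ m := by
      apply Subtype.ext
      change PG.vx (del S e) (S.a e) _ = (PG.vx (del S e) (S.a e) ⟨g e, hgm⟩) ^ m
      rw [← map_pow]
      rfl
    have hib : iCl (del S e) (S.a e) βc = g e := by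
      rw [iCl_apply]
      change PG.nat (del S e) (PG.vx (del S e) (S.a e) ⟨g e, hgm⟩) = _
      rw [PG.nat_vx]
    refine Safe.rt
      { A := cl (del S e) (S.b e)
        finA := fin_cl hfg' _
        iA := iCb S e
        m := m
        a := zC hzm
        b := g e
        hab := by rw [← zAC hzm, iA_zA]
        hz := IsConj.refl _
        univ := ?_
        hA := (b2_cl hB hb).exists_char _ } hD ?_
    · intro α x hx
      obtain ⟨γ, hγ⟩ := l1 x
      have h1 : γ (zA hzm) = α (zC hzm) := by rw [hx, hc, map_pow, hγ]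
      obtain ⟨ρ, ⟨h2, h3⟩, h4⟩ := am_univ hU hcon hC hzm γ α h1
      refine ⟨ρ, ⟨h3, ?_⟩, ?_⟩
      · rw [← hib, ← MonoidHom.comp_apply, h2, hγ]
      · rintro ρ' ⟨h5, h6⟩
        refine h4 ρ' ⟨l2 _ _ ?_, h5⟩
        rw [hγ]
        change ρ' (iCl (del S e) (S.a e) βc) = x
        rw [hib]
        exact h6
    · intro j hj
      have hr : ∀ w, w ≠ S.a e → Rch (del S e) (S.b e) w := fun w hw =>
        (hreach w).elim (fun h => absurd (leaf_rch (S := del S e) hl h) hw) id
      rcases j with _ | j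
      · exact conj_cb (hr v₀ (hcyc _ ⟨_, hG⟩).symm) hγ
      have hje : j.1 ≠ e := fun h => hj (congrArg some (Subtype.ext h))
      rcases (hs j.1 j.2).mem with hm | hm
      · exact conj_cb (hr _ fun h => hje (hleaf j.1 (Or.inl h))) hm
      · exact conj_cb (hr _ fun h => hje (hleaf j.1 (Or.inr h))) hm

/-- BLOCK COUNT with one more element: the representations with `T γ = 0` -/
theorem countO [Group.FG Γ] (hU : S.UP) (hfg : ∀ v, (S.G v).FG)
    (hB : ∀ (A : Type) [Group A] (f : A →* Γ), (∃ x y, f x * f y ≠ f y * f x) → B2 A)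
    {E₀ : Set S.E} {g : S.E → Γ} {D : S.E → F → Prop}
    (hs : ∀ e ∈ E₀, SafeE S F e (g e) (D e)) {γ : Γ} {v₀ : S.V} (hv₀ : S.NA v₀)
    (hγ : γ ∈ S.G v₀) :
    Nat.card F ^ 2 ∣ Nat.card {ρ : Γ →* S2 F // (ρ γ).1.trace = 0 ∧
      ∃ e ∈ E₀, D e (ρ (g e)).1.trace} := by
  classical
  have : CharP F 2 := charP_of_injective_algebraMap (algebraMap (ZMod 2) F).injective 2
  have := finite_hom Γ (S2 F)
  have hfE := Fintype.ofFinite E₀
  have h := incl_excl' (R := Γ →* S2 F) (Nat.card F ^ 2)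
    (fun i ρ => DO (E₀ := E₀) D i (ρ (gO (E₀ := E₀) g γ i)).1.trace)
    (fun i => ∃ e, i = some e)
    (fun T hT => by
      obtain ⟨i, hi, e, rfl⟩ := hT
      exact count_one _ _ T hi (safeO hU hfg hB hs hv₀ hγ e))
    ((Finset.univ : Finset E₀).image some) (fun i hi => by
      obtain ⟨e, -, he⟩ := Finset.mem_image.1 hi
      exact ⟨e, he.symm⟩) {none}
  have e : ∀ ρ : Γ →* S2 F, ((ρ γ).1.trace = 0 ∧ ∃ e ∈ E₀, D e (ρ (g e)).1.trace) ↔
      ((∀ i ∈ ({none} : Finset (Option E₀)), DO (E₀ := E₀) D i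
        (ρ (gO (E₀ := E₀) g γ i)).1.trace) ∧
        ∃ i ∈ ((Finset.univ : Finset E₀).image some), DO (E₀ := E₀) D i
          (ρ (gO (E₀ := E₀) g γ i)).1.trace) := by
    intro ρ
    constructor
    · rintro ⟨h1, e, he, h2⟩
      refine ⟨fun i hi => ?_, some ⟨e, he⟩, Finset.mem_image_of_mem _ (Finset.mem_univ _), h2⟩
      rw [Finset.mem_singleton] at hi
      subst hi
      exact h1
    · rintro ⟨h1, i, hi, h2⟩
      obtain ⟨e, -, rfl⟩ := Finset.mem_image.1 hi
      exact ⟨h1 none (Finset.mem_singleton_self _), e.1, e.2, h2⟩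
  rw [Nat.card_congr (Equiv.subtypeEquivRight e)]
  exact h

end

end Pool.Agent.SuG
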