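import Pool.Agent.Lib.MP_305fdd_al.Su.G.Side
import Pool.Agent.Lib.MP_305fdd_al.Su.G.CntO
import Pool.Agent.Lib.MP_305fdd_al.Fr.Asm.CntFin
import Pool.Agent.Lib.MP_305fdd_al.Su.FI.NoRoot

/-!
# MP_305fdd_al, surface groups: COUNT at the representations with `T γ ≠ 0`

For the class `Sc`, a minimal splitting `S`, the product `y` of safe elements and an element `γ` of a
non-abelian vertex group: the number of the representations with `T γ ≠ 0`, `y = 0` is divisible by
`q ^ 2`.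
-/

set_option autoImplicit false
set_option linter.unusedSectionVars false

namespace Pool.Agent.SuG

open Matrix (SpecialLinearGroup)
open Pool.Agent.FrN Pool.Agent.FrAsm Pool.Agent.FrS Pool.Agent.FrC Pool.Agent.SuS Polynomial

/-- every representation over a finite field is a point -/
def Pts {Γ F : Type} [Group Γ] [Field F] [Algebra (ZMod 2) F]
    (ρ : Γ →* SpecialLinearGroup (Fin 2) F) : Prop :=
  ∀ (κ : Type) [Field κ] [Finite κ] [Algebra (ZMod 2) κ] (r : Γ →* SpecialLinearGroup (Fin 2) κ),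
    ∃ φ : OO 2 ρ →ₐ[ZMod 2] κ, ∀ g i j, φ ⟨(ρ g).1 i j, mem_OO ρ g i j⟩ = (r g).1 i j

section cnt

variable {Γ K F : Type} [Group Γ] [Field K] [Field F] [Algebra (ZMod 2) K]
  [Algebra (ZMod 2) F] [Algebra K F] {T : Γ → K} {ρ : Γ →* SpecialLinearGroup (Fin 2) F}

theorem Pts.one (h : Pts ρ) : ∃ φ : OO 2 ρ →ₐ[ZMod 2] ZMod 2,
    ∀ x i j, φ ⟨(ρ x).1 i j, mem_OO ρ x i j⟩ = (1 : Matrix (Fin 2) (Fin 2) (ZMod 2)) i j := by
  obtain ⟨φ, hφ⟩ := h (ZMod 2) 1
  exact ⟨φ, fun x i j => hφ x i j⟩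

theorem Sc.tf (H : Sc Γ K F T ρ) (hp : Pts ρ) (x : Γ) (n : ℕ) (hn : n ≠ 0) (hx : x ^ n = 1) :
    x = 1 := by
  have := H.fg
  obtain ⟨φ, hφ⟩ := hp.one
  exact SuFI.tf_of H.inj H.div φ hφ x n hn hx

theorem Sc.b2 (H : Sc Γ K F T ρ) (hp : Pts ρ) (A : Type) [Group A] (f : A →* Γ)
    (hf : ∃ x y, f x * f y ≠ f y * f x) : B2 A := by
  have := H.fg
  obtain ⟨φ, hφ⟩ := hp.one
  refine exists_two_field ρ φ.toRingHom (fun g i j => hφ g i j) f ?_
  obtain ⟨x, y, hxy⟩ := hf
  refine ⟨x, y, fun h => hxy (H.inj ?_)⟩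
  rw [map_mul, map_mul]
  exact h

/-- the number of the representations at which a product of values of polynomials at traces does not
vanish -/
theorem cnt_prod (hT : ∀ g, (ρ g).1.trace = algebraMap K F (T g)) {ι : Type} [Fintype ι]
    (g : ι → Γ) (P : ι → (ZMod 2)[X]) (hp : Pts ρ) (k : ℕ) (hk : 1 ≤ k) :
    cnt (K := K) ρ (∏ i, aeval (T (g i)) (P i)) k =
      Nat.card {r : Γ →* SpecialLinearGroup (Fin 2) (GaloisField 2 k) //
        ∀ i, aeval ((r (g i)).1.trace) (P i) ≠ 0} := by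
  have hst : IsScalarTower (ZMod 2) K F :=
    IsScalarTower.of_algebraMap_eq' (Subsingleton.elim _ _)
  -- the element of `OO`
  have hy : algebraMap K F (∏ i, aeval (T (g i)) (P i)) =
      ((∏ i, aeval ((FrTop.rO ρ (g i)).1.trace) (P i) : OO 2 ρ) : F) := by
    have h1 : ∀ x : OO 2 ρ, (x : F) = (OO 2 ρ).val x := fun _ => rfl
    rw [map_prod, h1, map_prod]
    refine Finset.prod_congr rfl fun i _ => ?_
    rw [← Polynomial.aeval_algebraMap_apply, ← Polynomial.aeval_algHom_apply, ← hT,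
      Matrix.trace_fin_two, Matrix.trace_fin_two, map_add]
    rfl
  have hφ : ∀ φ : OO 2 ρ →ₐ[ZMod 2] GaloisField 2 k,
      (∃ h : algebraMap K F (∏ i, aeval (T (g i)) (P i)) ∈ OO 2 ρ, φ ⟨_, h⟩ ≠ 0) ↔
        ∀ i, aeval ((repOf ρ φ (g i)).1.trace) (P i) ≠ 0 := by
    intro φ
    have h1 : ∀ i, aeval ((repOf ρ φ (g i)).1.trace) (P i) =
        φ (aeval ((FrTop.rO ρ (g i)).1.trace) (P i)) := by
      intro i
      rw [trace_repOf, Polynomial.aeval_algHom_apply]
    have h2 : ∀ h : algebraMap K F (∏ i, aeval (T (g i)) (P i)) ∈ OO 2 ρ,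
        φ ⟨_, h⟩ = ∏ i, aeval ((repOf ρ φ (g i)).1.trace) (P i) := by
      intro h
      have h3 : (⟨_, h⟩ : OO 2 ρ) = ∏ i, aeval ((FrTop.rO ρ (g i)).1.trace) (P i) :=
        Subtype.ext hy
      rw [h3, map_prod]
      exact Finset.prod_congr rfl fun i _ => (h1 i).symm
    constructor
    · rintro ⟨h, h0⟩ i hi
      apply h0
      rw [h2 h]
      exact Finset.prod_eq_zero (Finset.mem_univ i) hi
    · intro h
      have hm : algebraMap K F (∏ i, aeval (T (g i)) (P i)) ∈ OO 2 ρ := by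
        rw [hy]
        exact Subtype.prop _
      refine ⟨hm, ?_⟩
      rw [h2 hm]
      exact Finset.prod_ne_zero_iff.2 fun i _ => h i
  have hfin : Finite (GaloisField 2 k) := Nat.finite_of_card_ne_zero (by
    rw [card_GF hk]; positivity)
  have hbij : Function.Bijective (repOf ρ (R := GaloisField 2 k)) := by
    refine ⟨fun φ ψ h => FrTop.hom_ext φ ψ fun g i j => ?_, fun r => ?_⟩
    · rw [← repOf_apply, ← repOf_apply, h]
    · obtain ⟨φ, hφ⟩ := hp (GaloisField 2 k) r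
      refine ⟨φ, MonoidHom.ext fun g => Subtype.ext (Matrix.ext fun i j => ?_)⟩
      rw [repOf_apply]
      exact hφ g i j
  rw [cnt]
  refine Nat.card_congr ?_
  exact (Equiv.ofBijective _ hbij).subtypeEquiv fun φ => hφ φ

theorem safeE_RL (H : Sc Γ K F T ρ) (hp : Pts ρ) {S : GG Γ} (hS : S.Adm)
    (hE : ∀ e, S.NA (S.a e) ∨ S.NA (S.b e)) {e : S.E} {w : Γ}
    {m : ℕ} (h : RL S e w m) {κ : Type} [Field κ] {D : κ → Prop}
    (hD : ∀ h : S2 κ, D h.1.trace → h ^ m = 1) : SafeE S κ e w D := by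
  have hw : w ≠ 1 := by
    rintro rfl
    exact h.ne hS (one_pow m)
  have hinf : ∀ k : ℤ, w ^ k = 1 → k = 0 := by
    intro k hk
    by_contra h0
    have h1 : w ^ k.natAbs = 1 := by
      rcases Int.natAbs_eq k with h | h
      · rw [h, zpow_natCast] at hk
        exact hk
      · rw [h, zpow_neg, inv_eq_one, zpow_natCast] at hk
        exact hk
    exact hw (Sc.tf H hp _ _ (Int.natAbs_ne_zero.mpr h0) h1)
  obtain ⟨_, hne, h3⟩ := h
  rcases h3 with ⟨hl, hG, hC⟩ | ⟨hl, hG, hC⟩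
  · refine SafeE.rootb m hne hl hG hinf hC hD ⟨S.a e, Rch.refl _, ?_⟩
    rcases hE e with h4 | h4
    · exact h4
    · refine absurd ?_ h4
      intro x hx y hy
      rw [hG] at hx hy
      obtain ⟨i, rfl⟩ := hx
      obtain ⟨j, rfl⟩ := hy
      exact zpow_mul_comm w i j
  · refine SafeE.roota m hne hl hG hinf hC hD ⟨S.b e, Rch.refl _, ?_⟩
    rcases hE e with h4 | h4
    · refine absurd ?_ h4
      intro x hx y hy
      rw [hG] at hx hy
      obtain ⟨i, rfl⟩ := hx
      obtain ⟨j, rfl⟩ := hy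
      exact zpow_mul_comm w i j
    · exact h4

theorem safeEl_data (H : Sc Γ K F T ρ) (hp : Pts ρ) {S : GG Γ} (hS : S.Adm)
    (hE : ∀ e, S.NA (S.a e) ∨ S.NA (S.b e)) {e : S.E}
    (hc : Cyc S e) {f : K} (h : SafeEl T S e f) : ∃ (g : Γ) (P : (ZMod 2)[X]), f = aeval (T g) P ∧
      ∀ (κ : Type) [Field κ] [Algebra (ZMod 2) κ] [Finite κ],
        SafeE S κ e g (fun t => aeval t P = 0) := by
  cases h with
  | tr z hz hr =>
    refine ⟨z, X, (aeval_X _).symm, fun κ _ _ _ => ?_⟩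
    refine SafeE.edge hz (fun t => by rw [aeval_X]) ?_ ?_
    · rcases side_a H (Sc.tf H hp) hS hE e hc hr with h1 | ⟨e', he', ⟨h1, h2⟩ | ⟨h1, h2⟩⟩
      · exact ⟨_, Rch.refl _, h1⟩
      · refine ⟨S.b e', ?_, h2⟩
        have h3 : Rch (del S e) (S.a e) ((del S e).a ⟨e', he'⟩) := by
          rw [show (del S e).a ⟨e', he'⟩ = S.a e from h1]
          exact Rch.refl _
        exact h3.fwd
      · refine ⟨S.a e', ?_, h2⟩
        have h3 : Rch (del S e) (S.a e) ((del S e).b ⟨e', he'⟩) := by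
          rw [show (del S e).b ⟨e', he'⟩ = S.a e from h1]
          exact Rch.refl _
        exact h3.bwd
    · rcases side_b H (Sc.tf H hp) hS hE e hc hr with h1 | ⟨e', he', ⟨h1, h2⟩ | ⟨h1, h2⟩⟩
      · exact ⟨_, Rch.refl _, h1⟩
      · refine ⟨S.b e', ?_, h2⟩
        have h3 : Rch (del S e) (S.b e) ((del S e).a ⟨e', he'⟩) := by
          rw [show (del S e).a ⟨e', he'⟩ = S.b e from h1]
          exact Rch.refl _
        exact h3.fwd
      · refine ⟨S.a e', ?_, h2⟩
        have h3 : Rch (del S e) (S.b e) ((del S e).b ⟨e', he'⟩) := by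
          rw [show (del S e).b ⟨e', he'⟩ = S.b e from h1]
          exact Rch.refl _
        exact h3.bwd
  | ev w m h hm =>
    refine ⟨w, X, (aeval_X _).symm, fun κ _ _ _ => ?_⟩
    have : CharP κ 2 := charP_of_injective_algebraMap (algebraMap (ZMod 2) κ).injective 2
    refine safeE_RL H hp hS hE h fun A hA => ?_
    rw [aeval_X] at hA
    exact pow_eq_one_of_tr_zero hm A hA
  | od w m h hm P hP =>
    refine ⟨w, P, rfl, fun κ _ _ _ => ?_⟩
    have : CharP κ 2 := charP_of_injective_algebraMap (algebraMap (ZMod 2) κ).injective 2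
    refine safeE_RL H hp hS hE h fun A hA => ?_
    refine pow_eq_one_of_tr_pow A ?_ ?_
    · rw [tr_pow_SL, ← hP, map_mul, map_pow, hA, zero_pow two_ne_zero, zero_mul]
    · intro h0
      rw [h0, ← coeff_zero_eq_aeval_zero'] at hA
      refine sqrt_coeff hm hP ?_
      exact (map_eq_zero (algebraMap (ZMod 2) κ)).mp hA

/-- COUNT_h for an admissible splitting in which every edge has a non-abelian end: the number of the
representations with `T γ ≠ 0`, `y = 0` is divisible by `q ^ 2`. -/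
theorem count_adm (H : Sc Γ K F T ρ) (hp : Pts ρ) {S : GG Γ} (hS : S.Adm)
    (hE : ∀ e, S.NA (S.a e) ∨ S.NA (S.b e)) {y : K}
    (hy : SafeProd T S y) {γ : Γ} (hγ : ∃ v, S.NA v ∧ ∃ c, c * γ * c⁻¹ ∈ S.G v) (k : ℕ)
    (hk : 1 ≤ k) :
    ((2 : ℤ) ^ k) ^ 2 ∣ (cnt (K := K) ρ (T γ) k : ℤ) - cnt (K := K) ρ (T γ * y) k := by
  classical
  obtain ⟨v₀, hv₀, c, hc⟩ := hγ
  obtain ⟨f, hf1, hf2, rfl⟩ := hy
  have h : ∀ e : S.E, ∃ (g : Γ) (P : (ZMod 2)[X]), f e = aeval (T g) P ∧
      (Cyc S e → ∀ (κ : Type) [Field κ] [Algebra (ZMod 2) κ] [Finite κ],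
        SafeE S κ e g (fun t => aeval t P = 0)) ∧ (¬ Cyc S e → P = 1) := by
    intro e
    by_cases hc : Cyc S e
    · obtain ⟨g, P, h1, h2⟩ := safeEl_data H hp hS hE hc (hf1 e hc)
      exact ⟨g, P, h1, fun _ => h2, fun h => absurd hc h⟩
    · exact ⟨1, 1, by rw [hf2 e hc, map_one], fun h => absurd h hc, fun _ => rfl⟩
  choose g P h1 h2 h3 using h
  have hfin : Finite (GaloisField 2 k) := Nat.finite_of_card_ne_zero (by
    rw [card_GF hk]; positivity)
  have hfg : Group.FG Γ := H.fg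
  have hfinR := FrC.finite_hom Γ (S2 (GaloisField 2 k))
  -- the two products
  have e1 : cnt (K := K) ρ (T γ) k = Nat.card {r : Γ →* S2 (GaloisField 2 k) //
      (r γ).1.trace ≠ 0} := by
    have := cnt_prod (ρ := ρ) H.tr (fun _ : Unit => γ) (fun _ => X) hp k hk
    simp only [aeval_X, Finset.univ_unique, Finset.prod_const, Finset.card_singleton, pow_one,
      forall_const] at this
    exact this
  have e2 : cnt (K := K) ρ (T γ * ∏ e, f e) k = Nat.card {r : Γ →* S2 (GaloisField 2 k) //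
      (r γ).1.trace ≠ 0 ∧ ¬ ∃ e, aeval ((r (g e)).1.trace) (P e) = 0} := by
    have := cnt_prod (ρ := ρ) H.tr (ι := Option S.E) (fun o => o.elim γ g)
      (fun o => o.elim X P) hp k hk
    rw [Fintype.prod_option] at this
    simp only [Option.elim, aeval_X] at this
    simp_rw [← h1] at this
    rw [this]
    refine Nat.card_congr (Equiv.subtypeEquivRight fun r => ?_)
    rw [Option.forall, not_exists]
    simp only [aeval_X, ne_eq]
  -- the counts
  have hB := fun (A : Type) [Group A] (f : A →* Γ) (hf : ∃ x y, f x * f y ≠ f y * f x) =>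
    Sc.b2 H hp A f hf
  have hev : ∀ r : Γ →* S2 (GaloisField 2 k), (∃ e, aeval ((r (g e)).1.trace) (P e) = 0) ↔
      ∃ e ∈ {e | Cyc S e}, aeval ((r (g e)).1.trace) (P e) = 0 := by
    intro r
    constructor
    · rintro ⟨i, hi⟩
      refine ⟨i, ?_, hi⟩
      by_contra h4
      rw [h3 i h4, map_one] at hi
      exact one_ne_zero hi
    · rintro ⟨i, _, hi⟩
      exact ⟨i, hi⟩
  have c1 := countS (F := GaloisField 2 k) (S := S) (E₀ := {e | Cyc S e}) (g := g)
    (D := fun e t => aeval t (P e) = 0) hS.toUP hS.fgV hB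
    (fun e he => h2 e he (GaloisField 2 k))
  have c2 := countO (F := GaloisField 2 k) (S := S) (E₀ := {e | Cyc S e}) (g := g)
    (D := fun e t => aeval t (P e) = 0) hS.toUP hS.fgV hB
    (fun e he => h2 e he (GaloisField 2 k)) hv₀ hc
  rw [card_GF hk] at c1 c2
  rw [← Nat.card_congr (Equiv.subtypeEquivRight hev)] at c1
  have hconj : ∀ r : Γ →* S2 (GaloisField 2 k), (r (c * γ * c⁻¹)).1.trace = (r γ).1.trace := by
    intro r
    exact tr_of_isConj (isConj_iff.mpr ⟨c⁻¹, by group⟩) r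
  have c2' : (2 ^ k) ^ 2 ∣ Nat.card {r : Γ →* S2 (GaloisField 2 k) // (r γ).1.trace = 0 ∧
      ∃ e, aeval ((r (g e)).1.trace) (P e) = 0} := by
    rw [← Nat.card_congr (Equiv.subtypeEquivRight (p := fun r : Γ →* S2 (GaloisField 2 k) =>
      (r (c * γ * c⁻¹)).1.trace = 0 ∧ ∃ e ∈ {e | Cyc S e},
        aeval ((r (g e)).1.trace) (P e) = 0) fun r => by rw [hconj r, ← hev r])]
    exact c2
  -- sums
  have hft := Fintype.ofFinite (Γ →* S2 (GaloisField 2 k))
  have s1 : Nat.card {r : Γ →* S2 (GaloisField 2 k) // ∃ e, aeval ((r (g e)).1.trace) (P e) = 0} =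
      Nat.card {r : Γ →* S2 (GaloisField 2 k) // (r γ).1.trace = 0 ∧
        ∃ e, aeval ((r (g e)).1.trace) (P e) = 0} +
      Nat.card {r : Γ →* S2 (GaloisField 2 k) // (r γ).1.trace ≠ 0 ∧
        ∃ e, aeval ((r (g e)).1.trace) (P e) = 0} := by
    rw [Nat.card_eq_fintype_card, Nat.card_eq_fintype_card, Nat.card_eq_fintype_card,
      Fintype.card_subtype, Fintype.card_subtype, Fintype.card_subtype,
      ← Finset.card_union_of_disjoint]
    · congr 1
      ext r
      simp only [Finset.mem_filter, Finset.mem_univ, true_and, Finset.mem_union]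
      tauto
    · rw [Finset.disjoint_filter]
      rintro r - ⟨h4, -⟩ ⟨h5, -⟩
      exact h5 h4
  have s2 : Nat.card {r : Γ →* S2 (GaloisField 2 k) // (r γ).1.trace ≠ 0} =
      Nat.card {r : Γ →* S2 (GaloisField 2 k) // (r γ).1.trace ≠ 0 ∧
        ¬ ∃ e, aeval ((r (g e)).1.trace) (P e) = 0} +
      Nat.card {r : Γ →* S2 (GaloisField 2 k) // (r γ).1.trace ≠ 0 ∧
        ∃ e, aeval ((r (g e)).1.trace) (P e) = 0} := by
    rw [Nat.card_eq_fintype_card, Nat.card_eq_fintype_card, Nat.card_eq_fintype_card,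
      Fintype.card_subtype, Fintype.card_subtype, Fintype.card_subtype,
      ← Finset.card_union_of_disjoint]
    · congr 1
      ext r
      simp only [Finset.mem_filter, Finset.mem_univ, true_and, Finset.mem_union]
      tauto
    · rw [Finset.disjoint_filter]
      rintro r - ⟨-, h4⟩ ⟨-, h5⟩
      exact h4 h5
  rw [e1, e2, s2]
  have c3 : (2 ^ k) ^ 2 ∣ Nat.card {r : Γ →* S2 (GaloisField 2 k) // (r γ).1.trace ≠ 0 ∧
      ∃ e, aeval ((r (g e)).1.trace) (P e) = 0} := by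
    rw [s1] at c1
    exact (Nat.dvd_add_right c2').1 c1
  push_cast
  rw [add_sub_cancel_left]
  exact_mod_cast c3

/-- COUNT_h for a minimal splitting. -/
theorem count_h (H : Sc Γ K F T ρ) (hp : Pts ρ) {S : GG Γ} (hS : Smin ρ S) {y : K}
    (hy : SafeProd T S y) {γ : Γ} (hγ : ∃ v, S.NA v ∧ ∃ c, c * γ * c⁻¹ ∈ S.G v) (k : ℕ)
    (hk : 1 ≤ k) :
    ((2 : ℤ) ^ k) ^ 2 ∣ (cnt (K := K) ρ (T γ) k : ℤ) - cnt (K := K) ρ (T γ * y) k :=
  count_adm H hp hS.1 (fun e => smin_edge' (tor_of H.inj H.div) hS e) hy hγ k hk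

end cnt

end Pool.Agent.SuG
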