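import Pool.Agent.Lib.MP_305fdd_al.Fr.N.C.Main
import Pool.Agent.Lib.MP_305fdd_al.Fr.N.C.Asm

/-!
# MP_305fdd_al, surface groups: the complement of `T g = 0`, definitions

`HG b ... g` is the class `HB` of the section N of the project F_r, with the conditions on the
representations restricted to those for which `trace (r g)` is not zero, and with `Hom(Γ, Z/2)`
replaced by the condition that `g` is a commutator.
-/

set_option autoImplicit false

namespace Pool.Agent.SuG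

open Pool.Agent.FrN Pool.Agent.F2Ch Pool.Agent.F2RF Pool.Agent.F2TF

/-- The class relative to an element `g` (a commutator): all representations with
`trace (r g) ≠ 0` are points and have few infinitesimal deformations. -/
structure HG (b : ℕ) (Γ K F : Type) [Group Γ] [Field K] [Field F] [Algebra (ZMod 2) K]
    [Algebra (ZMod 2) F] [Algebra K F] (T : Γ → K)
    (ρ : Γ →* Matrix.SpecialLinearGroup (Fin 2) F) (g : Γ) : Prop where
  fg : Group.FG Γ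
  tr : ∀ h, (ρ h).1.trace = algebraMap K F (T h)
  fracK : Frc (BB 2 T)
  fracF : Frc (OO 2 ρ)
  trF : Algebra.trdeg (ZMod 2) F = 3 * b
  trK : Algebra.trdeg (ZMod 2) K + 3 = 3 * b
  com : ∃ a c : Γ, g = a * c * a⁻¹ * c⁻¹
  pts : ∀ (κ : Type) [Field κ] [Finite κ] [Algebra (ZMod 2) κ]
    (r : Γ →* Matrix.SpecialLinearGroup (Fin 2) κ), (r g).1.trace ≠ 0 →
    ∃ φ : OO 2 ρ →ₐ[ZMod 2] κ, ∀ h i j, φ ⟨(ρ h).1 i j, mem_OO ρ h i j⟩ = (r h).1 i j
  lifts : ∀ (κ : Type) [Field κ] [Finite κ] [Algebra (ZMod 2) κ]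
    (r : Γ →* Matrix.SpecialLinearGroup (Fin 2) κ), (r g).1.trace ≠ 0 →
    Nat.card {s : Γ →* Matrix.SpecialLinearGroup (Fin 2) (DualNumber κ) //
      ∀ h i j, TrivSqZeroExt.fst ((s h).1 i j) = (r h).1 i j} ≤ Nat.card κ ^ (3 * b)

/-- the final statement: `I_CD` for the class `HG` -/
def I_CDG : Prop :=
  ∀ (b : ℕ) (Γ K F : Type) [Group Γ] [Field K] [Field F] [Algebra (ZMod 2) K]
    [Algebra (ZMod 2) F] [Algebra K F] (T : Γ → K)
    (ρ : Γ →* Matrix.SpecialLinearGroup (Fin 2) F) (g : Γ), 1 ≤ b → HG b Γ K F T ρ g →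
    ∀ (Φ : K → K), LogTy 2 Φ → ∀ h : IsPinv 2 Φ, T g ≠ 0 →
    ∃ Ng S : Submodule (BB 2 T) K, Ng ≠ ⊥ ∧ Stb Φ Ng ∧ S.FG ∧
      Ng = loc (bT 2 T g) S ∧
      (∀ Q : Submodule (BB 2 T) K, Q ≠ ⊥ → Stb Φ Q → (∀ x, T g * x ∈ Q → x ∈ Q) → Ng ≤ Q) ∧
      ∀ y : BB 2 T, y ≠ 0 → (∃ z : BB 2 T, (y : K) = T g * z) →
        (∃ W, Nuc (toEnd h) ((loc y Ng).restrictScalars (ZMod 2)) W) ∧
        ∃ (f : (PowerSeries ℤ)ˣ) (s : ℕ → ℤ), LD (f : PowerSeries ℤ) s ∧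
          PF h (loc y Ng) = red 2 f ∧
          ∀ k, 1 ≤ k → ∃ a : ℤ, (cnt (K := K) ρ y k : ℤ) = 2 ^ k * (2 ^ k * a + sgn b * s k)

end Pool.Agent.SuG
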