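import Pool.Agent.Lib.MP_305fdd_al.Su.G.NilH
import Pool.Agent.Lib.MP_305fdd_al.Su.RS.NSG

/-!
# MP_305fdd_al, surface groups: the assembly of LEMMA G (modulo the base step `PropR`)

`sminH_edge`: in a minimal splitting relative to `P` every edge has a non-abelian end.

`lemG_of`: for every finitely generated non-abelian subgroup `P` of `Γ` a Cartier operator of the field of
the traces of `P` is nilpotent on a nonzero ideal of the ring of the traces of `P`.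
-/

set_option autoImplicit false
set_option linter.unusedSectionVars false

namespace Pool.Agent.SuG

open Matrix (SpecialLinearGroup)
open Pool.Agent.Su Pool.Agent.Lib.MP_305fdd_al Pool.Agent.MP_305fdd_al Pool.Agent.FrN
  Pool.Agent.FrAsm Pool.Agent.SuS Pool.Agent.SuSM Pool.Agent.SuTk Pool.Agent.SuL Pool.Agent.SuU
  Pool.Agent.F2Ch Pool.Agent.F2RF Pool.Agent.SuAA Pool.Agent.SuMin Pool.Agent.FrS Pool.Agent.SuRS

section edge

variable {Γ F : Type} [Group Γ] [Field F] [Algebra (ZMod 2) F]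
  {ρ : Γ →* SpecialLinearGroup (Fin 2) F} {H0 : Subgroup Γ} {S : GG Γ}

theorem admH_ctr (hS : AdmH H0 S) (e : S.E) (h0 : S.a e ≠ S.b e) (ha : ¬ S.NA (S.a e))
    (hb : ¬ S.NA (S.b e)) : AdmH H0 (S.ctr e h0) := by
  refine ⟨S.ctr_adm e h0 hS.1 ha hb, ?_⟩
  obtain ⟨v, g, hg⟩ := hS.2
  refine ⟨S.cφ e h0 v, g * (S.cτ e v)⁻¹, fun c hc => ?_⟩
  have h1 := S.le_ctr_G e h0 v _ (hg c hc)
  have h2 : (g * (S.cτ e v)⁻¹)⁻¹ * c * (g * (S.cτ e v)⁻¹) =
      S.cτ e v * (g⁻¹ * c * g) * (S.cτ e v)⁻¹ := by group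
  rw [h2]
  exact h1

theorem admH_ctrL (hS : AdmH H0 S) (e : S.E) (h0 : S.b e = S.a e) : AdmH H0 (S.ctrL e) := by
  refine ⟨S.ctrL_adm e h0 hS.1, ?_⟩
  obtain ⟨v, g, hg⟩ := hS.2
  exact ⟨S.lV e v, g, fun c hc => S.le_ctrL_G e v (hg c hc)⟩

/-- In a minimal splitting relative to `H0` every edge has a non-abelian end. -/
theorem sminH_edge (hT : Tor Γ) (h : SminH ρ H0 S) (e : S.E) : S.NA (S.a e) ∨ S.NA (S.b e) := by
  by_cases h0 : S.a e = S.b e
  · left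
    by_contra hcon
    rcases h.2 _ (admH_ctrL h.1 e h0.symm) with h1 | ⟨_, h1⟩
    · rw [S.ctrL_DD e h0.symm ρ hT (h.1.1.ne e) hcon] at h1
      exact lt_irrefl _ h1
    · exact absurd (card_ctrL S e) (not_lt.2 h1)
  · by_contra hcon
    rw [not_or] at hcon
    rcases h.2 _ (admH_ctr h.1 e h0 hcon.1 hcon.2) with h1 | ⟨_, h1⟩
    · rw [S.ctr_DD e h0 ρ hT (h.1.1.ne e) hcon.1 hcon.2] at h1
      exact lt_irrefl _ h1
    · exact absurd (card_ctr S e h0) (not_lt.2 h1)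

end edge

section lemG

variable {Λ Γ K F : Type} [Group Λ] [Group Γ] [Field K] [Field F] [Algebra (ZMod 2) K]
  [Algebra (ZMod 2) F] [Algebra K F] {T : Γ → K} {ρ : Γ →* SpecialLinearGroup (Fin 2) F}
  {π : Λ →* Γ} {g : ℕ}

/-- the traces of the elements of `P` as elements of the field of the traces of `P` -/
def TP (T : Γ → K) (P : Subgroup Γ) (x : P) : KP T P :=
  ⟨T x, IntermediateField.subset_adjoin _ _ ⟨x, x.2, rfl⟩⟩

theorem mem_BBP {P : Subgroup Γ} (b : KP T P) : b ∈ BB 2 (TP T P) ↔ (b : K) ∈ BP T P := by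
  have h1 : (BB 2 (TP T P)).map (KP T P).val = BP T P := by
    rw [BB, AlgHom.map_adjoin]
    unfold BP
    congr 1
    ext a
    constructor
    · rintro ⟨_, ⟨g, rfl⟩, rfl⟩
      exact ⟨g, g.2, rfl⟩
    · rintro ⟨g, hg, rfl⟩
      exact ⟨_, ⟨⟨g, hg⟩, rfl⟩, rfl⟩
  rw [← h1]
  constructor
  · exact fun hb => ⟨b, hb, rfl⟩
  · rintro ⟨b', hb', hbb⟩
    have h2 : b' = b := Subtype.ext hbb
    rwa [h2] at hb'

theorem frc_BBP {P : Subgroup Γ} : Frc (BB 2 (TP T P)) := by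
  intro x
  obtain ⟨a, ha, b, hb, hb0, hab⟩ := BP_frac P x
  exact ⟨a, (mem_BBP a).2 ha, b, (mem_BBP b).2 hb, hb0, hab⟩

theorem fg_BBP (H : TrD T ρ) {P : Subgroup Γ} (hP : P.FG) : (BB 2 (TP T P)).FG := by
  have h1 : BB 2 (TP T P) = (BP T P).comap (KP T P).val := by
    ext b
    exact mem_BBP b
  rw [h1]
  exact BP_comap_fg H hP

/-- LEMMA G, modulo the base step: the hypothesis `hR` is `PropR` for the localised ring of the traces
of the vertex groups of a relatively minimal splitting. -/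
theorem lemG_of [Group.FG Λ] (hg : 2 ≤ g) (Φ : NatBij Λ (SurfaceGroup g))
    (hπ : Function.Surjective π) (hgn : Gn 2 (ρ.comp π)) (H : Sc Γ K F T ρ) (hN : NIL T)
    {P : Subgroup Γ} (hfg : P.FG) (hP : ¬ ∀ x ∈ P, ∀ y ∈ P, x * y = y * x)
    (hR : ∀ (S : GG Γ) (hS : SminH ρ P S) (y : K), SafeProd T S y →
      PropR 2 (iPV (fun _ hg => hS.1.mem H.tr hg)) (BVy T S y).toSubring) :
    NIL (TP T P) := by
  obtain ⟨S, hS⟩ := exists_sminH H.fg ρ P
  obtain ⟨y, hy⟩ := exists_safeProd T S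
  obtain ⟨h, hh, hh0, hnil⟩ := nilh hg Φ hπ hgn H hN hS.1.1
    (sminH_edge (FrS.tor_of H.inj H.div) hS) hy hP hS.1.2
  obtain ⟨d, t, p, hM⟩ := exists_MB (fg_BBP H.tr hfg) (frc_BBP (T := T) (P := P))
  have hL : LogTy 2 (p j0) :=
    ⟨d, t, p, 1, hM, one_ne_zero, fun f => by rw [inv_one, one_mul, one_mul]⟩
  obtain ⟨c, h1, h2, h3⟩ := lemG_nil H S hS.1.1 hy.mem (SuS.safeProd_ne H hS.1.1 hy) P
    (fun _ hg => hS.1.mem H.tr hg) (hR S hS y hy) hh hh0 hnil hL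
  refine ⟨_, hL, c, (mem_BBP c).2 h1, h2, fun β hβ => ?_⟩
  obtain ⟨n, hn⟩ := h3 β ((mem_BBP β).1 hβ)
  exact ⟨n, by rw [mul_comm]; exact hn⟩

end lemG

end Pool.Agent.SuG
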