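import Pool.Agent.Lib.MP_305fdd_al.Su.G.Asm
import Pool.Agent.Lib.MP_305fdd_al.Fr.N.Main
import Pool.Agent.Lib.MP_305fdd_al.Fr.N.MainP

/-!
# MP_305fdd_al, surface groups: passing from `M[1/y]` to `M[1/T(g)]` by counting

`quo_nil`: two stable subspaces `V₁ ≤ V₂` whose polynomials have logarithmic derivatives which are
congruent modulo `2 ^ k` for all `k`: every element of `V₂` is mapped into `V₁` by a power of `C`.

`nilg`: if the number of the representations with `T(g) ≠ 0`, `y = 0` is divisible by `q ^ 2`, then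
for the smallest stable submodule `M` and every `m` in `M[1/y]` some `T(g) ^ j Φ ^ e (m)` is in `M`.
-/

set_option autoImplicit false

namespace Pool.Agent.SuG

open Pool.Agent.FrN Pool.Agent.FrNA Pool.Agent.F2Ch Pool.Agent.F2RF Pool.Agent.F2TF

theorem PV_restrict {k V : Type} [Field k] [AddCommGroup V] [Module k V] {C : Module.End k V}
    {V₀ : Submodule k V} (hst : ∀ v ∈ V₀, C v ∈ V₀) (h : ∃ W, Nuc C V₀ W) :
    PV (C.restrict hst) ⊤ = PV C V₀ ∧ ∃ W, Nuc (C.restrict hst) ⊤ W := by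
  obtain ⟨W, hW⟩ := h
  have h1 := nuc_restrict hst hW
  refine ⟨?_, _, nuc_top.2 h1⟩
  rw [PU_eq_iff, PP_restrict hst hW, PP_top h1]

theorem quo_nil {V : Type} [AddCommGroup V] [Module (ZMod 2) V] (C : Module.End (ZMod 2) V)
    (V₁ V₂ : Submodule (ZMod 2) V) (hle : V₁ ≤ V₂) (h1 : ∀ v ∈ V₁, C v ∈ V₁)
    (h2 : ∀ v ∈ V₂, C v ∈ V₂) (hN : ∃ W, Nuc C V₂ W) (f₁ f₂ : (PowerSeries ℤ)ˣ)
    (s₁ s₂ : ℕ → ℤ) (hf₁ : LD (f₁ : PowerSeries ℤ) s₁) (hf₂ : LD (f₂ : PowerSeries ℤ) s₂)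
    (hp₁ : PV C V₁ = red 2 f₁) (hp₂ : PV C V₂ = red 2 f₂)
    (hs : ∀ k, 1 ≤ k → (2 : ℤ) ^ k ∣ s₂ k - s₁ k) :
    ∀ v ∈ V₂, ∃ e : ℕ, (C ^ e) v ∈ V₁ := by
  obtain ⟨hP2, hN2⟩ := PV_restrict h2 hN
  let i : V₁ →ₗ[ZMod 2] V₂ := Submodule.inclusion hle
  have hi : Function.Injective i := Submodule.inclusion_injective hle
  have hic : ∀ v, i (C.restrict h1 v) = C.restrict h2 (i v) := fun v => rfl
  let Q := V₂ ⧸ LinearMap.range i
  let C'' : Module.End (ZMod 2) Q := (LinearMap.range i).mapQ (LinearMap.range i)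
    (C.restrict h2) (by
      rintro _ ⟨v, rfl⟩
      exact ⟨C.restrict h1 v, hic v⟩)
  obtain ⟨hN1, hNQ, hprod⟩ := p_ex (ZMod 2) V₁ V₂ Q (C.restrict h1) (C.restrict h2) C'' i
    (LinearMap.range i).mkQ hi (Submodule.mkQ_surjective _) (Submodule.ker_mkQ _).symm hic
    (fun v => rfl) hN2
  have hP1 : PV (C.restrict h1) ⊤ = PV C V₁ := by
    obtain ⟨W, hW⟩ := hN1
    exact (PV_restrict h1 ⟨_, restrict_nuc h1 (nuc_top.1 hW)⟩).1
  rw [hP1, hP2, hp₁, hp₂] at hprod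
  have hPQ : PV C'' ⊤ = red 2 (f₂ * f₁⁻¹) := by
    rw [map_mul, map_inv, hprod, mul_comm (red 2 f₁), mul_assoc, mul_inv_cancel, mul_one]
  have hLD := ld_mul hf₂ (ld_inv hf₁)
  rcases FrNA.t_G 2 Q C'' ⊤ hNQ (f₂ * f₁⁻¹) _ hLD hPQ with hn | ⟨d, k₀, hd, hk₀, hsd⟩
  · intro v hv
    obtain ⟨e, he⟩ := hn ((LinearMap.range i).mkQ ⟨v, hv⟩) trivial
    refine ⟨e, ?_⟩
    have h3 : ∀ (n : ℕ) (w : V₂), (C'' ^ n) ((LinearMap.range i).mkQ w) =
        (LinearMap.range i).mkQ (((C.restrict h2) ^ n) w) := by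
      intro n
      induction n with
      | zero => intro w; rfl
      | succ n ih =>
        intro w
        rw [pow_succ, pow_succ, Module.End.mul_apply, Module.End.mul_apply, ← ih]
        rfl
    have h4 : ∀ (n : ℕ) (w : V₂), ((((C.restrict h2) ^ n) w : V₂) : V) = (C ^ n) w := by
      intro n
      induction n with
      | zero => intro w; rfl
      | succ n ih =>
        intro w
        rw [pow_succ, pow_succ, Module.End.mul_apply, Module.End.mul_apply, ih]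
        rfl
    rw [h3, Submodule.mkQ_apply, Submodule.Quotient.mk_eq_zero] at he
    obtain ⟨w, hw⟩ := he
    have h5 := congrArg Subtype.val hw
    rw [h4] at h5
    rw [← h5]
    exact w.2
  · exfalso
    -- `2 ^ (i + 1)` divides `d` for all large `i`
    have key : ∀ n : ℕ, (2 : ℤ) ^ (n + 1) ∣ (d : ℤ) := by
      intro n
      have hk1 : 1 ≤ k₀ * 2 ^ n := Nat.one_le_iff_ne_zero.2
        (Nat.mul_ne_zero (by omega) (by positivity))
      have e1 := hsd n (k₀ * 2 ^ n) hk1 dvd_rfl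
      have e2 := hs (k₀ * 2 ^ n) hk1
      have hle' := le_two_pow hk1 (dvd_refl (k₀ * 2 ^ n))
      have e3 : (2 : ℤ) ^ (n + 1) ∣ s₂ (k₀ * 2 ^ n) - s₁ (k₀ * 2 ^ n) :=
        (pow_dvd_pow 2 hle').trans e2
      have e4 : (((2 : ℕ) : ℤ)) ^ (n + 1) = 2 ^ (n + 1) := by norm_num
      rw [e4] at e1
      have e5 : (d : ℤ) = (s₂ (k₀ * 2 ^ n) - s₁ (k₀ * 2 ^ n)) -
          ((s₂ (k₀ * 2 ^ n) + -s₁ (k₀ * 2 ^ n)) - d) := by ring
      rw [e5]
      exact dvd_sub e3 e1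
    have e6 := Int.le_of_dvd (by exact_mod_cast hd) (key d)
    have e7 : d < 2 ^ (d + 1) := lt_of_lt_of_le Nat.lt_two_pow_self
      (Nat.pow_le_pow_right (by norm_num) (Nat.le_succ d))
    have e8 : (2 : ℤ) ^ (d + 1) = ((2 ^ (d + 1) : ℕ) : ℤ) := by push_cast; rfl
    rw [e8] at e6
    exact absurd (by exact_mod_cast e6) (not_le.2 e7)

/-- NILG: from `M[1/y]` to `M[1/T(g)]`. -/
theorem nilg (b : ℕ) (Γ K F : Type) [Group Γ] [Field K] [Field F] [Algebra (ZMod 2) K]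
    [Algebra (ZMod 2) F] [Algebra K F] (T : Γ → K)
    (ρ : Γ →* Matrix.SpecialLinearGroup (Fin 2) F) (g : Γ) (hb : 1 ≤ b) (H : HG b Γ K F T ρ g)
    (hTg : T g ≠ 0) (Φ : K → K) (hΦ : LogTy 2 Φ) (M : Submodule (BB 2 T) K)
    (hM : IsOm (BB 2 T) Φ M) (y : BB 2 T) (hy : y ≠ 0)
    (hcnt : ∀ k, 1 ≤ k → ((2 : ℤ) ^ k) ^ 2 ∣
      (cnt (K := K) ρ (T g) k : ℤ) - cnt (K := K) ρ (T g * y) k) :
    ∀ m ∈ loc y M, ∃ e j : ℕ, T g ^ j * Φ^[e] m ∈ M := by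
  have hchK : CharP K 2 := charP_of_injective_algebraMap (algebraMap (ZMod 2) K).injective 2
  have h := lt_pinv hΦ
  obtain ⟨Ng, S, hne, hstb, -, -, hmin, hy'⟩ := t_CDG b Γ K F T ρ g hb H Φ hΦ h hTg
  have hMN : M ≤ Ng := hM.min Ng hne hstb
  have hNM : Ng ≤ loc (bT 2 T g) M := by
    refine hmin _ ?_ (hM.stb.loc h _) ?_
    · intro h0
      exact hM.ne (le_bot_iff.1 (h0 ▸ le_loc _ _))
    · intro x hx
      exact loc_div (bT 2 T g) M hx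
  have hbg : bT 2 T g ≠ 0 := fun h0 => hTg (congrArg Subtype.val h0)
  -- the two localisations
  have hyt : bT 2 T g * y ≠ 0 := mul_ne_zero hbg hy
  obtain ⟨-, f₁, s₁, hf₁, hp₁, hc₁⟩ := hy' (bT 2 T g) hbg ⟨1, by
    change T g = T g * 1
    rw [mul_one]⟩
  obtain ⟨hN₂, f₂, s₂, hf₂, hp₂, hc₂⟩ := hy' (bT 2 T g * y) hyt ⟨y, rfl⟩
  have hle : (loc (bT 2 T g) Ng).restrictScalars (ZMod 2) ≤
      (loc (bT 2 T g * y) Ng).restrictScalars (ZMod 2) := by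
    rintro x ⟨a, ha⟩
    refine ⟨a, ?_⟩
    rw [mul_pow, mul_comm, mul_smul]
    exact Ng.smul_mem _ ha
  have hs : ∀ k, 1 ≤ k → (2 : ℤ) ^ k ∣ s₂ k - s₁ k := by
    intro k hk
    obtain ⟨a₁, h₁⟩ := hc₁ k hk
    obtain ⟨a₂, h₂⟩ := hc₂ k hk
    obtain ⟨c, hc⟩ := hcnt k hk
    change (cnt (K := K) ρ (T g) k : ℤ) = _ at h₁
    change (cnt (K := K) ρ (T g * y) k : ℤ) = _ at h₂
    rw [h₁, h₂] at hc
    have e1 : (2 : ℤ) ^ k * (2 ^ k * (a₁ - a₂) + sgn b * (s₁ k - s₂ k)) =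
        2 ^ k * (2 ^ k * c) := by
      linear_combination hc
    have e2 := mul_left_cancel₀ (by positivity) e1
    have e3 : sgn b * (s₁ k - s₂ k) = 2 ^ k * (c - (a₁ - a₂)) := by linear_combination e2
    have e4 : sgn b * sgn b = 1 := by
      rw [sgn, ← pow_add, ← two_mul, pow_mul]
      norm_num
    refine ⟨-(sgn b * (c - (a₁ - a₂))), ?_⟩
    linear_combination (-(s₂ k - s₁ k)) * e4 - sgn b * e3
  intro m hm
  have hm2 : m ∈ (loc (bT 2 T g * y) Ng).restrictScalars (ZMod 2) := by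
    obtain ⟨a, ha⟩ := hm
    refine ⟨a, ?_⟩
    rw [mul_pow, mul_smul]
    exact Ng.smul_mem _ (hMN ha)
  obtain ⟨e, he⟩ := quo_nil (toEnd h) _ _ hle (fun v hv => (hstb.loc h _) v hv)
    (fun v hv => (hstb.loc h _) v hv) hN₂ f₁ f₂ s₁ s₂ hf₁ hf₂ hp₁ hp₂ hs m hm2
  rw [toEnd_pow h] at he
  obtain ⟨a, ha⟩ := he
  obtain ⟨c, hc⟩ := hNM ha
  refine ⟨e, c + a, ?_⟩
  have e5 : T g ^ (c + a) * Φ^[e] m = bT 2 T g ^ c • bT 2 T g ^ a • Φ^[e] m := by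
    rw [smul_smul, ← pow_add]
    change _ = (((bT 2 T g) ^ (c + a) : BB 2 T) : K) * Φ^[e] m
    rw [SubmonoidClass.coe_pow]
    rfl
  rw [e5]
  exact hc

end Pool.Agent.SuG
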