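import Pool.Agent.Lib.MP_305fdd_al.Su.G.Of
import Pool.Agent.Lib.MP_305fdd_al.Su.AA.Nil
import Pool.Agent.Lib.MP_305fdd_al.Su.U.Nil
import Pool.Agent.Lib.MP_305fdd_al.Su.S.NSG

/-!
# MP_305fdd_al, surface groups: nilpotence up to powers of `h` for an elliptic subgroup

`nilh`: `P` is a non-abelian subgroup which is elliptic in the admissible splitting `S` (in which every
edge has a non-abelian end), `y` is the product of the safe elements: there is `h ≠ 0` in the ring of the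
traces of `P` with `NILh T y h`.
-/

set_option autoImplicit false
set_option linter.unusedSectionVars false

namespace Pool.Agent.SuG

open Matrix (SpecialLinearGroup)
open Pool.Agent.Su Pool.Agent.Lib.MP_305fdd_al Pool.Agent.MP_305fdd_al Pool.Agent.FrN
  Pool.Agent.FrAsm Pool.Agent.SuS Pool.Agent.SuSM Pool.Agent.SuTk Pool.Agent.SuL Pool.Agent.SuU
  Pool.Agent.F2Ch Pool.Agent.F2RF Pool.Agent.SuAA Pool.Agent.SuMin Pool.Agent.FrS

section nilh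

variable {Λ Γ K F : Type} [Group Λ] [Group Γ] [Field K] [Field F] [Algebra (ZMod 2) K]
  [Algebra (ZMod 2) F] [Algebra K F] {T : Γ → K} {ρ : Γ →* SpecialLinearGroup (Fin 2) F}
  {π : Λ →* Γ} {g : ℕ}

/-- nilpotence on the smallest stable submodule -/
theorem om_of_nil (hB : (BB 2 T).FG) (hF : Frc (BB 2 T)) (hN : NIL T) :
    ∃ Φ : K → K, LogTy 2 Φ ∧ ∃ M : Submodule (BB 2 T) K, IsOm (BB 2 T) Φ M ∧
      ∀ m ∈ M, ∃ e : ℕ, Φ^[e] m = 0 := by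
  have hc : CharP K 2 := charP_of_injective_algebraMap (algebraMap (ZMod 2) K).injective 2
  obtain ⟨Φ, hΦ, c, hcB, hc0, hcn⟩ := hN
  obtain ⟨M, hM, -⟩ := exists_om hB hF hΦ (lt_pinv hΦ)
  refine ⟨Φ, hΦ, M, hM, fun m hm => ?_⟩
  have hne : nilM (BB 2 T) (lt_pinv hΦ) ≠ ⊥ := by
    intro h0
    have h1 : c ∈ nilM (BB 2 T) (lt_pinv hΦ) := fun b hb => by
      obtain ⟨e, he⟩ := hcn b hb
      exact ⟨e, by rw [mul_comm]; exact he⟩
    rw [h0, Submodule.mem_bot] at h1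
    exact hc0 h1
  exact nilM_nil _ _ m (hM.min _ hne (nilM_stb _ _) hm)

/-- the ring of the traces of `ρ ∘ π` -/
theorem BB_comp (hπ : Function.Surjective π) : BB 2 (fun x => T (π x)) = BB 2 T := by
  unfold BB
  congr 1
  ext x
  constructor
  · rintro ⟨a, rfl⟩
    exact ⟨π a, rfl⟩
  · rintro ⟨a, rfl⟩
    obtain ⟨c, rfl⟩ := hπ a
    exact ⟨c, rfl⟩

theorem nil_comp (hπ : Function.Surjective π) : NIL (fun x => T (π x)) ↔ NIL T := by
  unfold NIL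
  rw [BB_comp hπ]

/-- the traces of an elliptic subgroup lie in the ring of the traces of the vertex groups -/
theorem ell_BV (hT : TrD T ρ) {S : GG Γ} {P : Subgroup Γ}
    (hel : ∃ v c, ∀ x ∈ P, c⁻¹ * x * c ∈ S.G v) : ∀ x ∈ P, T x ∈ BV T S := by
  obtain ⟨v, c, h⟩ := hel
  intro x hx
  have h1 : T x = T (c⁻¹ * x * c) := by
    have h2 := TrD.conj hT c⁻¹ x
    rw [inv_inv] at h2
    exact h2.symm
  rw [h1]
  exact Algebra.subset_adjoin ⟨_, ⟨v, h x hx⟩, rfl⟩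

/-- a vertex group which contains a conjugate of a non-abelian subgroup is not abelian -/
theorem ell_NA {S : GG Γ} {P : Subgroup Γ} (hP : ¬ ∀ x ∈ P, ∀ y ∈ P, x * y = y * x) {v : S.V}
    {c : Γ} (h : ∀ x ∈ P, c⁻¹ * x * c ∈ S.G v) : S.NA v := by
  intro hab
  apply hP
  intro x hx y hy
  have h1 := hab _ (h x hx) _ (h y hy)
  have h2 : c⁻¹ * (x * y) * c = c⁻¹ * (y * x) * c := by
    calc c⁻¹ * (x * y) * c = c⁻¹ * x * c * (c⁻¹ * y * c) := by group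
      _ = c⁻¹ * y * c * (c⁻¹ * x * c) := h1
      _ = _ := by group
  exact mul_left_cancel (mul_right_cancel h2)

/-- NILPOTENCE UP TO POWERS OF `h`. -/
theorem nilh [Group.FG Λ] (hg : 2 ≤ g) (Φ : NatBij Λ (SurfaceGroup g))
    (hπ : Function.Surjective π) (hgn : Gn 2 (ρ.comp π)) (H : Sc Γ K F T ρ) (hN : NIL T)
    {S : GG Γ} (hS : S.Adm) (hE : ∀ e, S.NA (S.a e) ∨ S.NA (S.b e)) {y : K}
    (hy : SafeProd T S y) {P : Subgroup Γ} (hP : ¬ ∀ x ∈ P, ∀ y ∈ P, x * y = y * x)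
    (hel : ∃ v c, ∀ x ∈ P, c⁻¹ * x * c ∈ S.G v) : ∃ h ∈ BP T P, h ≠ 0 ∧ NILh T y h := by
  have hpts := pts_of hg Φ hπ hgn
  obtain ⟨a, ha, b, hb, hab⟩ := exists_sq (FrS.tor_of H.inj H.div) P hP (sq_one H.div)
  set γ := a ^ 2 * b ^ 2 * (a ^ 2)⁻¹ * (b ^ 2)⁻¹ with hγdef
  have hγP : γ ∈ P := mul_mem (mul_mem (mul_mem (pow_mem ha 2) (pow_mem hb 2))
    (inv_mem (pow_mem ha 2))) (inv_mem (pow_mem hb 2))
  have hγ1 : γ ≠ 1 := by
    intro h
    rw [hγdef, mul_inv_eq_one, mul_inv_eq_iff_eq_mul] at h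
    exact hab h
  have hTγ : T γ ≠ 0 := SuS.T_ne H hγ1
  refine ⟨T γ, Algebra.subset_adjoin ⟨γ, hγP, rfl⟩, hTγ, ?_⟩
  obtain ⟨Ψ, hΨ, M, hM, hMn⟩ := om_of_nil (TrD.BB_fg H.tr H.fg) H.fracK hN
  have hyB : y ∈ BB 2 T := BV_le S hy.mem
  have hy0 : y ≠ 0 := SuS.safeProd_ne H hS hy
  have hG := hg_of hg Φ hπ hgn H a b
  refine nilh_of H.fracK hΨ M hM.ne hMn hyB hy0 ?_
  rintro m ⟨r, hr⟩
  refine nilg (2 * g - 1) Γ K F T ρ γ (by omega) hG hTγ Ψ hΨ M hM ⟨y, hyB⟩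
    (fun h0 => hy0 (congrArg Subtype.val h0)) (fun k hk => ?_) m ⟨r, hr⟩
  obtain ⟨v, c, h⟩ := hel
  exact count_adm H hpts hS hE hy ⟨v, ell_NA hP h, c⁻¹, by rw [inv_inv]; exact h γ hγP⟩ k hk

end nilh

end Pool.Agent.SuG
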