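import Pool.Agent.Lib.MP_305fdd_al.Su.G.CntH
import Pool.Agent.Lib.MP_305fdd_al.Su.G.Nil
import Pool.Agent.Lib.MP_305fdd_al.Su.SM.E34
import Pool.Agent.Lib.MP_305fdd_al.Su.Pts.Pack

/-!
# MP_305fdd_al, surface groups: the class `HG` for the image of the generic representation

`Λ` has the finite quotients of the surface group of genus `g ≥ 2`, `π : Λ → Γ` is surjective, `ρ ∘ π` is
the generic representation of `Λ`: then `HG (2 g - 1)` holds for `ρ` and the commutator of two squares.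
-/

set_option autoImplicit false
set_option linter.unusedSectionVars false

namespace Pool.Agent.SuG

open Matrix (SpecialLinearGroup)
open Pool.Agent.Su Pool.Agent.Lib.MP_305fdd_al Pool.Agent.MP_305fdd_al Pool.Agent.FrN
  Pool.Agent.FrAsm Pool.Agent.SuS Pool.Agent.SuSM Pool.Agent.SuTk FrH

section of

variable {Λ Γ K F : Type} [Group Λ] [Group Γ] [Field K] [Field F] [Algebra (ZMod 2) K]
  [Algebra (ZMod 2) F] [Algebra K F] {T : Γ → K} {ρ : Γ →* SpecialLinearGroup (Fin 2) F}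
  {π : Λ →* Γ} {g : ℕ}

theorem OO_comp (hπ : Function.Surjective π) : OO 2 (ρ.comp π) = OO 2 ρ := by
  unfold OO
  congr 1
  ext x
  constructor
  · rintro ⟨a, i, j, rfl⟩
    exact ⟨π a, i, j, rfl⟩
  · rintro ⟨a, i, j, rfl⟩
    obtain ⟨c, rfl⟩ := hπ a
    exact ⟨c, i, j, rfl⟩

/-- all representations over reduced rings are points -/
theorem pts_red_of [Group.FG Λ] (hg : 2 ≤ g) (Φ : NatBij Λ (SurfaceGroup g))
    (hπ : Function.Surjective π) (h : Gn 2 (ρ.comp π)) (R : Type) [CommRing R] [IsReduced R]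
    [Algebra (ZMod 2) R] (r : Γ →* SpecialLinearGroup (Fin 2) R) :
    ∃ φ : OO 2 ρ →ₐ[ZMod 2] R, ∀ x i j, φ ⟨(ρ x).1 i j, mem_OO ρ x i j⟩ = (r x).1 i j := by
  obtain ⟨φ, hφ⟩ := SuPts.Gn_pts hg Φ h R (r.comp π)
  refine ⟨φ.comp (Subalgebra.equivOfEq _ _ (OO_comp hπ).symm).toAlgHom, fun x i j => ?_⟩
  obtain ⟨c, rfl⟩ := hπ x
  exact hφ c i j

theorem pts_of [Group.FG Λ] (hg : 2 ≤ g) (Φ : NatBij Λ (SurfaceGroup g))
    (hπ : Function.Surjective π) (h : Gn 2 (ρ.comp π)) : Pts ρ := fun κ _ _ _ r =>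
  pts_red_of hg Φ hπ h κ r

/-- the transcendence degree of the field of the entries -/
theorem trF_of [Group.FG Λ] (hg : 2 ≤ g) (Φ : NatBij Λ (SurfaceGroup g))
    (hπ : Function.Surjective π) (h : Gn 2 (ρ.comp π)) (hF : Frc (OO 2 ρ)) :
    Algebra.trdeg (ZMod 2) F = 3 * ((2 * g - 1 : ℕ) : Cardinal) := by
  rw [trdeg_eq Φ hg h (by rw [OO_comp hπ]; exact hF)]
  have h1 : 6 * g - 3 = 3 * (2 * g - 1) := by omega
  rw [h1]
  push_cast
  rfl

/-- the transcendence degree of the field of the traces -/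
theorem trK_of (hT : TrD T ρ) (hK : Frc (BB 2 T)) :
    Algebra.trdeg (ZMod 2) K = Algebra.trdeg (ZMod 2) (FrH.KK ρ) := by
  have hst : IsScalarTower (ZMod 2) K F :=
    IsScalarTower.of_algebraMap_eq' (Subsingleton.elim _ _)
  let f : K →ₐ[ZMod 2] F := IsScalarTower.toAlgHom (ZMod 2) K F
  have h1 : f.range = (FrH.KK ρ).toSubalgebra := by
    apply le_antisymm
    · rintro _ ⟨x, rfl⟩
      obtain ⟨a, ha, b, hb, hb0, hab⟩ := hK x
      have h2 : ∀ c ∈ BB 2 T, f c ∈ FrH.KK ρ := by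
        have h3 : (BB 2 T).map f ≤ (FrH.KK ρ).toSubalgebra := by
          rw [BB, AlgHom.map_adjoin, Algebra.adjoin_le_iff]
          rintro _ ⟨_, ⟨x, rfl⟩, rfl⟩
          have h4 : f (T x) = (ρ x).1.trace := (hT x).symm
          rw [h4]
          exact trace_mem x
        exact fun c hc => h3 ⟨c, hc, rfl⟩
      have h5 : f x = f a / f b := by
        rw [eq_div_iff (by rw [Ne, map_eq_zero]; exact hb0), ← map_mul, hab]
      change f x ∈ FrH.KK ρ
      rw [h5]
      exact (FrH.KK ρ).div_mem (h2 a ha) (h2 b hb)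
    · have h6 : FrH.KK ρ ≤ f.fieldRange := by
        unfold FrH.KK
        rw [IntermediateField.adjoin_le_iff]
        rintro _ ⟨x, rfl⟩
        exact ⟨T x, (hT x).symm⟩
      exact fun x hx => h6 hx
  have e := AlgEquiv.ofInjective f f.injective
  rw [AlgEquiv.trdeg_eq e, h1]
  rfl

/-- the number of the lifts to the dual numbers of a good representation -/
theorem lifts_of [Group.FG Λ] (hg : 1 ≤ g) (Φ : NatBij Λ (SurfaceGroup g))
    (hπ : Function.Surjective π) (κ : Type) [Field κ] [Finite κ] [Algebra (ZMod 2) κ]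
    (r : Γ →* SpecialLinearGroup (Fin 2) κ) {x y : Γ}
    (hr : (r (x ^ 2 * y ^ 2 * (x ^ 2)⁻¹ * (y ^ 2)⁻¹)).1.trace ≠ 0) :
    Nat.card {s : Γ →* SpecialLinearGroup (Fin 2) (DualNumber κ) //
      ∀ h i j, TrivSqZeroExt.fst ((s h).1 i j) = (r h).1 i j} ≤
      Nat.card κ ^ (3 * (2 * g - 1)) := by
  have h2 : (2 : κ) = 0 := by
    have : CharP κ 2 := charP_of_injective_algebraMap (algebraMap (ZMod 2) κ).injective 2
    exact CharTwo.two_eq_zero
  have hfinD : Finite (DualNumber κ) := inferInstanceAs (Finite (κ × κ))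
  have hbad : bad (r.comp π) ≠ ⊥ := by
    rw [bad_ne_bot_iff]
    obtain ⟨x', rfl⟩ := hπ x
    obtain ⟨y', rfl⟩ := hπ y
    refine ⟨x' ^ 2, Subgroup.subset_closure ⟨x', rfl⟩, y' ^ 2,
      Subgroup.subset_closure ⟨y', rfl⟩, ?_⟩
    rw [MonoidHom.comp_apply]
    simp only [map_mul, map_inv, map_pow] at hr ⊢
    exact hr
  have h1 := card_lam' Φ hg h2 (small_dual (κ := κ)) (RingHom.id κ) (RingHom.id_comp _)
    (r.comp π) (by
      have h3 : (SpecialLinearGroup.map (RingHom.id κ)).comp (r.comp π) = r.comp π := by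
        refine MonoidHom.ext fun c => Subtype.ext (Matrix.ext fun i j => ?_)
        rfl
      rw [h3]
      exact hbad)
  have h4 : 6 * g - 3 = 3 * (2 * g - 1) := by omega
  rw [← h4, ← h1]
  have hfs : Finite (Λ →* SpecialLinearGroup (Fin 2) (DualNumber κ)) := by
    have : Finite (SpecialLinearGroup (Fin 2) (DualNumber κ)) :=
      Finite.of_injective (fun g : SpecialLinearGroup (Fin 2) (DualNumber κ) =>
        (g : Matrix (Fin 2) (Fin 2) (DualNumber κ))) Subtype.val_injective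
    exact Pool.Agent.MP_305fdd_al.finite_hom _ _
  refine Nat.card_le_card_of_injective (fun s => ⟨s.1.comp π, ?_⟩) ?_
  · refine MonoidHom.ext fun c => Subtype.ext (Matrix.ext fun i j => ?_)
    exact s.2 (π c) i j
  · intro s s' hss
    have h5 := congrArg Subtype.val hss
    exact Subtype.ext ((MonoidHom.cancel_right hπ).1 h5)

/-- THE CLASS `HG` -/
theorem hg_of [Group.FG Λ] (hg : 2 ≤ g) (Φ : NatBij Λ (SurfaceGroup g))
    (hπ : Function.Surjective π) (h : Gn 2 (ρ.comp π)) (H : Sc Γ K F T ρ) (x y : Γ) :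
    HG (2 * g - 1) Γ K F T ρ (x ^ 2 * y ^ 2 * (x ^ 2)⁻¹ * (y ^ 2)⁻¹) where
  fg := H.fg
  tr := H.tr
  fracK := H.fracK
  fracF := H.fracF
  trF := trF_of hg Φ hπ h H.fracF
  trK := by
    have hnc : ∃ a c : Γ, a * c ≠ c * a := by
      by_contra hcon
      push Not at hcon
      exact H.nab fun a c => hcon a c
    obtain ⟨a, c, hac⟩ := hnc
    have h1 := trdeg_KK (cv_of_WU H.fracF H.univ (gd_self H.inj H.div H.nab)) a c
      (det_ne H.div hac)
    rw [trK_of H.tr H.fracK, h1]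
    exact trF_of hg Φ hπ h H.fracF
  com := ⟨_, _, rfl⟩
  pts := fun κ _ _ _ r _ => pts_of hg Φ hπ h κ r
  lifts := fun κ _ _ _ r hr => lifts_of (by omega) Φ hπ κ r hr

end of

end Pool.Agent.SuG
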