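import Pool.Agent.Lib.MP_305fdd_al.Su.G.Defs

/-!
# MP_305fdd_al, surface groups: the complement of `T g = 0`, the points of the slice

Adapted from Fr/N/C/{p_cne, p_pts, p_cb}.lean (class `HG` instead of `HB`).
-/

set_option autoImplicit false

namespace Pool.Agent.SuG

open Pool.Agent.FrN Pool.Agent.FrNC Pool.Agent.F2Ch Pool.Agent.F2RF Pool.Agent.F2TF

theorem g_cne (b : ℕ) (Γ K F : Type) [Group Γ] [Field K] [Field F] [Algebra (ZMod 2) K]
    [Algebra (ZMod 2) F] [Algebra K F] (T : Γ → K)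
    (ρ : Γ →* Matrix.SpecialLinearGroup (Fin 2) F) (g : Γ) (hH : HG b Γ K F T ρ g)
    (hT : T g ≠ 0) : (ρ g).1 1 0 ≠ 0 := by
  classical
  intro h0
  have hp : Fact (Nat.Prime 2) := ⟨Nat.prime_two⟩
  set O : Subalgebra (ZMod 2) F := OO 2 ρ with hO
  have hft : Algebra.FiniteType (ZMod 2) O := (Subalgebra.fg_iff_finiteType _).1 (OO_fg ρ hH.fg)
  have hjac : IsJacobsonRing O := isJacobsonRing_of_finiteType (A := ZMod 2)
  -- the matrices over `O`
  let M : Γ → Matrix (Fin 2) (Fin 2) O := fun h i j => ⟨(ρ h).1 i j, mem_OO ρ h i j⟩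
  have hM1 : M 1 = 1 := by
    ext i j
    change (ρ 1).1 i j = (((1 : Matrix (Fin 2) (Fin 2) O) i j : O) : F)
    rw [map_one, Matrix.SpecialLinearGroup.coe_one, Matrix.one_apply, Matrix.one_apply]
    split_ifs <;> rfl
  have hMm : ∀ x y, M (x * y) = M x * M y := by
    intro x y
    ext i j
    change (ρ (x * y)).1 i j = (((M x * M y) i j : O) : F)
    rw [map_mul, Matrix.SpecialLinearGroup.coe_mul, Matrix.mul_apply, Matrix.mul_apply,
      Fin.sum_univ_two, Fin.sum_univ_two]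
    rfl
  have hMd : ∀ x, (M x).det = 1 := by
    intro x
    apply Subtype.ext
    rw [Matrix.det_fin_two]
    have h := (ρ x).2
    rw [Matrix.det_fin_two] at h
    exact h
  -- a maximal ideal which does not contain the trace
  set t : O := M g 0 0 + M g 1 1 with ht
  have ht0 : t ≠ 0 := by
    intro h
    have h1 : (ρ g).1.trace = 0 := by
      rw [Matrix.trace_fin_two]
      exact congrArg Subtype.val h
    rw [hH.tr g] at h1
    exact hT ((map_eq_zero (algebraMap K F)).1 h1)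
  have h1 : t ∉ (⊥ : Ideal O).jacobson := by
    rw [(isJacobsonRing_iff_prime_eq.1 hjac) ⊥ Ideal.isPrime_bot]
    simpa using ht0
  rw [Ideal.jacobson, Submodule.mem_sInf] at h1
  push Not at h1
  obtain ⟨m, ⟨_, hm⟩, hmem⟩ := h1
  let Fκ : Field (O ⧸ m) := Ideal.Quotient.field m
  have hft' : Algebra.FiniteType (ZMod 2) (O ⧸ m) := inferInstance
  have hfin : Module.Finite (ZMod 2) (O ⧸ m) := finite_of_finite_type_of_isJacobsonRing (ZMod 2) _
  have hfin' : Finite (O ⧸ m) := Module.finite_of_finite (ZMod 2)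
  -- the representation over the residue field
  let s : Γ →* Matrix.SpecialLinearGroup (Fin 2) (O ⧸ m) :=
    { toFun := fun h => ⟨(M h).map (Ideal.Quotient.mk m), by
        have := RingHom.map_det (Ideal.Quotient.mk m) (M h)
        rw [hMd, map_one] at this
        exact this.symm⟩
      map_one' := by
        apply Subtype.ext
        change (M 1).map _ = 1
        rw [hM1]
        exact Matrix.map_one _ (map_zero _) (map_one _)
      map_mul' := fun x y => by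
        apply Subtype.ext
        change (M (x * y)).map _ = (M x).map _ * (M y).map _
        rw [hMm, Matrix.map_mul] }
  have key : ∀ u : Matrix.SpecialLinearGroup (Fin 2) (O ⧸ m),
      (u.1 * (s g).1 * (u⁻¹).1) 1 0 = 0 := by
    intro u
    have htr : (((MulAut.conj u).toMonoidHom.comp s) g).1.trace ≠ 0 := by
      have e1 : (((MulAut.conj u).toMonoidHom.comp s) g).1 = u.1 * (s g).1 * (u⁻¹).1 := rfl
      have e2 : (u⁻¹).1 * u.1 = 1 := by
        rw [← Matrix.SpecialLinearGroup.coe_mul, inv_mul_cancel]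
        rfl
      rw [e1, Matrix.trace_mul_comm, ← Matrix.mul_assoc, e2, Matrix.one_mul,
        Matrix.trace_fin_two]
      intro h
      refine hmem (Ideal.Quotient.eq_zero_iff_mem.1 ?_)
      rw [ht, map_add]
      exact h
    obtain ⟨φ, hφ⟩ := hH.pts (O ⧸ m) ((MulAut.conj u).toMonoidHom.comp s) htr
    have h2 := hφ g 1 0
    have h3 : (⟨(ρ g).1 1 0, mem_OO ρ g 1 0⟩ : OO 2 ρ) = 0 := Subtype.ext h0
    rw [h3, map_zero] at h2
    rw [h2]
    rfl
  have e10 : (s g).1 1 0 = 0 := by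
    change Ideal.Quotient.mk m (M g 1 0) = 0
    have h3 : M g 1 0 = 0 := Subtype.ext h0
    rw [h3, map_zero]
  have key2 : ∀ a b c d : O ⧸ m, a * d - b * c = 1 →
      (!![a, b; c, d] * (s g).1 * !![d, -b; -c, a]) 1 0 = 0 := by
    intro a b c d hd
    let u : Matrix.SpecialLinearGroup (Fin 2) (O ⧸ m) :=
      ⟨!![a, b; c, d], by rw [Matrix.det_fin_two]; exact hd⟩
    have h1 := key u
    have h2 : (u⁻¹).1 = !![d, -b; -c, a] :=
      congrArg Subtype.val (Matrix.SpecialLinearGroup.SL2_inv_expl u)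
    rw [h2] at h1
    exact h1
  have k1 := key2 1 0 1 1 (by ring)
  have k2 := key2 0 1 (-1) 0 (by ring)
  simp only [Matrix.mul_apply, Fin.sum_univ_two, Matrix.of_apply, Matrix.cons_val', Matrix.cons_val_zero,
    Matrix.cons_val_one, Matrix.cons_val_fin_one, e10] at k1 k2
  have hb : (s g).1 0 1 = 0 := by linear_combination -k2
  have had : (s g).1 0 0 - (s g).1 1 1 = 0 := by linear_combination k1 + hb
  have h2 : (2 : O ⧸ m) = 0 := by
    have h4 : ((2 : ℕ) : ZMod 2) = 0 := ZMod.natCast_self 2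
    have h3 := congrArg (algebraMap (ZMod 2) (O ⧸ m)) h4
    rw [map_zero, map_natCast] at h3
    exact_mod_cast h3
  have htm : Ideal.Quotient.mk m t = 0 := by
    rw [ht, map_add]
    change (s g).1 0 0 + (s g).1 1 1 = 0
    linear_combination had + (s g).1 1 1 * h2
  exact hmem (Ideal.Quotient.eq_zero_iff_mem.1 htm)

theorem g_pts (b : ℕ) (Γ K F L : Type) [Group Γ] [Field K] [Field F] [Field L]
    [Algebra (ZMod 2) K] [Algebra (ZMod 2) F] [Algebra (ZMod 2) L] [Algebra K F] [Algebra K L]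
    (T : Γ → K) (ρ : Γ →* Matrix.SpecialLinearGroup (Fin 2) F) (g : Γ) (hH : HG b Γ K F T ρ g)
    (ι : L →ₐ[K] F) (r : Γ →* Matrix.SpecialLinearGroup (Fin 2) L)
    (hCF : CF ι ρ r g) (hrg : (r g).1 = cmp (algebraMap K L (T g)))
    (htr : ∀ h, (r h).1.trace = algebraMap K L (T h)) (y : BB 2 T) (hy : (y : K) ≠ 0)
    (hyz : ∃ z : BB 2 T, (y : K) = T g * z) (κ : Type) [Field κ] [Finite κ]
    [Algebra (ZMod 2) κ] :
    ∃ e : (Zw r (algebraMap K L y)⁻¹ →ₐ[ZMod 2] κ) ≃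
      {s : Γ →* Matrix.SpecialLinearGroup (Fin 2) κ //
        (s g).1 = cmp (s g).1.trace ∧ ∃ φ : OO 2 ρ →ₐ[ZMod 2] κ,
          (∀ h i j, φ ⟨(ρ h).1 i j, mem_OO ρ h i j⟩ = (s h).1 i j) ∧
          ∃ hy : algebraMap K F y ∈ OO 2 ρ, φ ⟨_, hy⟩ ≠ 0},
      ∀ ζ h i j, ζ ⟨(r h).1 i j, mem_Zw r _ h i j⟩ = ((e ζ).1 h).1 i j := by
  set w : L := (algebraMap K L y)⁻¹ with hw
  have hyL : algebraMap K L y ≠ 0 := by
    intro h; exact hy ((map_eq_zero _).1 h)
  have hyF : algebraMap K F y ≠ 0 := by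
    intro h; exact hy ((map_eq_zero _).1 h)
  -- `y` in the two rings
  have hBZ : ∀ x : K, x ∈ BB 2 T → algebraMap K L x ∈ Algebra.adjoin (ZMod 2)
      {x | ∃ h i j, x = (r h).1 i j} := by
    intro x hx
    induction hx using Algebra.adjoin_induction with
    | mem x hx =>
      obtain ⟨h, rfl⟩ := hx
      rw [← htr h, Matrix.trace_fin_two]
      exact add_mem (Algebra.subset_adjoin ⟨h, 0, 0, rfl⟩) (Algebra.subset_adjoin ⟨h, 1, 1, rfl⟩)
    | algebraMap c => rw [pts_zmod]; exact Subalgebra.algebraMap_mem _ c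
    | add x x' _ _ h1 h2 => rw [map_add]; exact add_mem h1 h2
    | mul x x' _ _ h1 h2 => rw [map_mul]; exact mul_mem h1 h2
  have hsub : Algebra.adjoin (ZMod 2) {x | ∃ h i j, x = (r h).1 i j} ≤ Zw r w :=
    Algebra.adjoin_mono Set.subset_union_left
  have hwZ : w ∈ Zw r w := Algebra.subset_adjoin (Or.inr rfl)
  have hyZ : algebraMap K L y ∈ Zw r w := hsub (hBZ y y.2)
  have hyw : ∀ ζ : Zw r w →ₐ[ZMod 2] κ, ζ ⟨_, hyZ⟩ * ζ ⟨w, hwZ⟩ = 1 := by
    intro ζ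
    rw [← map_mul, ← map_one ζ]
    congr 1
    apply Subtype.ext
    exact mul_inv_cancel₀ hyL
  -- the two homomorphisms agree on the traces
  have hφζ : ∀ (ζ : Zw r w →ₐ[ZMod 2] κ) (φ : OO 2 ρ →ₐ[ZMod 2] κ),
      (∀ h i j, φ ⟨(ρ h).1 i j, mem_OO ρ h i j⟩ = ζ ⟨(r h).1 i j, mem_Zw r w h i j⟩) →
      ∀ x : K, x ∈ BB 2 T → ∃ (h1 : algebraMap K F x ∈ OO 2 ρ) (h2 : algebraMap K L x ∈ Zw r w),
        φ ⟨_, h1⟩ = ζ ⟨_, h2⟩ := by
    intro ζ φ hag x hx
    induction hx using Algebra.adjoin_induction with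
    | mem x hx =>
      obtain ⟨h, rfl⟩ := hx
      have e1 : algebraMap K F (T h) = (ρ h).1 0 0 + (ρ h).1 1 1 := by
        rw [← hH.tr h, Matrix.trace_fin_two]
      have e2 : algebraMap K L (T h) = (r h).1 0 0 + (r h).1 1 1 := by
        rw [← htr h, Matrix.trace_fin_two]
      have m1 : algebraMap K F (T h) ∈ OO 2 ρ := by
        rw [e1]; exact add_mem (mem_OO ρ h 0 0) (mem_OO ρ h 1 1)
      have m2 : algebraMap K L (T h) ∈ Zw r w := by
        rw [e2]; exact add_mem (mem_Zw r w h 0 0) (mem_Zw r w h 1 1)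
      refine ⟨m1, m2, ?_⟩
      have f1 : (⟨_, m1⟩ : OO 2 ρ) = ⟨(ρ h).1 0 0, mem_OO ρ h 0 0⟩ +
          ⟨(ρ h).1 1 1, mem_OO ρ h 1 1⟩ := Subtype.ext e1
      have f2 : (⟨_, m2⟩ : Zw r w) = ⟨(r h).1 0 0, mem_Zw r w h 0 0⟩ +
          ⟨(r h).1 1 1, mem_Zw r w h 1 1⟩ := Subtype.ext e2
      rw [f1, f2, map_add, map_add, hag, hag]
    | algebraMap c =>
      have m1 : algebraMap K F (algebraMap (ZMod 2) K c) ∈ OO 2 ρ := by
        rw [pts_zmod]; exact Subalgebra.algebraMap_mem _ c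
      have m2 : algebraMap K L (algebraMap (ZMod 2) K c) ∈ Zw r w := by
        rw [pts_zmod]; exact Subalgebra.algebraMap_mem _ c
      refine ⟨m1, m2, ?_⟩
      have f1 : (⟨_, m1⟩ : OO 2 ρ) = algebraMap (ZMod 2) (OO 2 ρ) c :=
        Subtype.ext (pts_zmod (algebraMap K F) c)
      have f2 : (⟨_, m2⟩ : Zw r w) = algebraMap (ZMod 2) (Zw r w) c :=
        Subtype.ext (pts_zmod (algebraMap K L) c)
      rw [f1, f2, AlgHom.commutes, AlgHom.commutes]
    | add x x' _ _ h1 h2 =>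
      obtain ⟨a1, a2, a3⟩ := h1
      obtain ⟨b1, b2, b3⟩ := h2
      have m1 : algebraMap K F (x + x') ∈ OO 2 ρ := by rw [map_add]; exact add_mem a1 b1
      have m2 : algebraMap K L (x + x') ∈ Zw r w := by rw [map_add]; exact add_mem a2 b2
      refine ⟨m1, m2, ?_⟩
      have f1 : (⟨_, m1⟩ : OO 2 ρ) = ⟨_, a1⟩ + ⟨_, b1⟩ := Subtype.ext (map_add _ x x')
      have f2 : (⟨_, m2⟩ : Zw r w) = ⟨_, a2⟩ + ⟨_, b2⟩ := Subtype.ext (map_add _ x x')
      rw [f1, f2, map_add, map_add, a3, b3]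
    | mul x x' _ _ h1 h2 =>
      obtain ⟨a1, a2, a3⟩ := h1
      obtain ⟨b1, b2, b3⟩ := h2
      have m1 : algebraMap K F (x * x') ∈ OO 2 ρ := by rw [map_mul]; exact mul_mem a1 b1
      have m2 : algebraMap K L (x * x') ∈ Zw r w := by rw [map_mul]; exact mul_mem a2 b2
      refine ⟨m1, m2, ?_⟩
      have f1 : (⟨_, m1⟩ : OO 2 ρ) = ⟨_, a1⟩ * ⟨_, b1⟩ := Subtype.ext (map_mul _ x x')
      have f2 : (⟨_, m2⟩ : Zw r w) = ⟨_, a2⟩ * ⟨_, b2⟩ := Subtype.ext (map_mul _ x x')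
      rw [f1, f2, map_mul, map_mul, a3, b3]
  -- the map is well defined
  have hwd : ∀ ζ : Zw r w →ₐ[ZMod 2] κ, (pts_e r w ζ g).1 = cmp (pts_e r w ζ g).1.trace ∧
      ∃ φ : OO 2 ρ →ₐ[ZMod 2] κ,
        (∀ h i j, φ ⟨(ρ h).1 i j, mem_OO ρ h i j⟩ = (pts_e r w ζ h).1 i j) ∧
        ∃ hy : algebraMap K F y ∈ OO 2 ρ, φ ⟨_, hy⟩ ≠ 0 := by
    intro ζ
    constructor
    · have e00 : (pts_e r w ζ g).1 0 0 = 0 := by
        rw [pts_e_apply, ← map_zero ζ]
        congr 1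
        apply Subtype.ext
        change (r g).1 0 0 = 0
        rw [hrg]; rfl
      have e01 : (pts_e r w ζ g).1 0 1 = 1 := by
        rw [pts_e_apply, ← map_one ζ]
        congr 1
        apply Subtype.ext
        change (r g).1 0 1 = 1
        rw [hrg]; rfl
      have e10 : (pts_e r w ζ g).1 1 0 = 1 := by
        rw [pts_e_apply, ← map_one ζ]
        congr 1
        apply Subtype.ext
        change (r g).1 1 0 = 1
        rw [hrg]; rfl
      rw [Matrix.trace_fin_two, e00, zero_add]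
      ext i j
      fin_cases i <;> fin_cases j
      exacts [e00, e01, e10, rfl]
    · have htg : (pts_e r w ζ g).1.trace ≠ 0 := by
        intro h0
        obtain ⟨z, hz⟩ := hyz
        have hTZ : algebraMap K L (T g) ∈ Zw r w :=
          hsub (hBZ _ (Algebra.subset_adjoin ⟨g, rfl⟩))
        have hzZ : algebraMap K L z ∈ Zw r w := hsub (hBZ z z.2)
        have e1 : (⟨_, hyZ⟩ : Zw r w) = ⟨_, hTZ⟩ * ⟨_, hzZ⟩ := by
          apply Subtype.ext
          change algebraMap K L y = algebraMap K L (T g) * algebraMap K L z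
          rw [hz, map_mul]
        have e2 : ζ ⟨_, hTZ⟩ = (pts_e r w ζ g).1.trace := by
          rw [Matrix.trace_fin_two, pts_e_apply, pts_e_apply, ← map_add]
          congr 1
          apply Subtype.ext
          change algebraMap K L (T g) = (r g).1 0 0 + (r g).1 1 1
          rw [← htr g, Matrix.trace_fin_two]
        have e3 := hyw ζ
        rw [e1, map_mul, e2, h0, zero_mul, zero_mul] at e3
        exact zero_ne_one e3
      obtain ⟨φ, hφ⟩ := hH.pts κ (pts_e r w ζ) htg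
      refine ⟨φ, hφ, ?_⟩
      obtain ⟨h1, h2, h3⟩ := hφζ ζ φ (fun h i j => by rw [hφ, pts_e_apply]) y y.2
      refine ⟨h1, ?_⟩
      rw [h3]
      intro h0
      have := hyw ζ
      rw [h0, zero_mul] at this
      exact zero_ne_one this
  refine ⟨Equiv.ofBijective (fun ζ => ⟨pts_e r w ζ, hwd ζ⟩) ⟨?_, ?_⟩, ?_⟩
  · -- injectivity
    intro ζ ζ' h
    have hs : pts_e r w ζ = pts_e r w ζ' := congrArg Subtype.val h
    have hent : ∀ h i j, ζ ⟨(r h).1 i j, mem_Zw r w h i j⟩ =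
        ζ' ⟨(r h).1 i j, mem_Zw r w h i j⟩ := by
      intro h i j
      rw [← pts_e_apply, ← pts_e_apply, hs]
    have hy1 : ∀ x (hx : x ∈ Algebra.adjoin (ZMod 2) {x | ∃ h i j, x = (r h).1 i j}),
        ζ ⟨x, hsub hx⟩ = ζ' ⟨x, hsub hx⟩ := by
      intro x hx
      induction hx using Algebra.adjoin_induction with
      | mem x hx => obtain ⟨h, i, j, rfl⟩ := hx; exact hent h i j
      | algebraMap c =>
        exact (ζ.commutes c).trans (ζ'.commutes c).symm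
      | add x x' m1 m2 h1 h2 =>
        have f : (⟨x + x', hsub (add_mem m1 m2)⟩ : Zw r w) = ⟨x, hsub m1⟩ + ⟨x', hsub m2⟩ := rfl
        rw [f, map_add, map_add, h1, h2]
      | mul x x' m1 m2 h1 h2 =>
        have f : (⟨x * x', hsub (mul_mem m1 m2)⟩ : Zw r w) = ⟨x, hsub m1⟩ * ⟨x', hsub m2⟩ := rfl
        rw [f, map_mul, map_mul, h1, h2]
    have hww : ζ ⟨w, hwZ⟩ = ζ' ⟨w, hwZ⟩ := by
      have h1 := hyw ζ
      have h2 := hyw ζ'
      have h3 : ζ ⟨_, hyZ⟩ = ζ' ⟨_, hyZ⟩ := hy1 _ (hBZ y y.2)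
      rw [← h3] at h2
      have h4 : ζ ⟨_, hyZ⟩ ≠ 0 := left_ne_zero_of_mul_eq_one h1
      exact mul_left_cancel₀ h4 (h1.trans h2.symm)
    ext ⟨x, hx⟩
    induction hx using Algebra.adjoin_induction with
    | mem x hx =>
      rcases hx with hx | hx
      · obtain ⟨h, i, j, rfl⟩ := hx
        exact hent h i j
      · have hx' : x = w := hx
        subst hx'
        exact hww
    | algebraMap c => exact (ζ.commutes c).trans (ζ'.commutes c).symm
    | add x x' m1 m2 h1 h2 =>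
      have f : (⟨x + x', add_mem m1 m2⟩ : Zw r w) = ⟨x, m1⟩ + ⟨x', m2⟩ := rfl
      rw [f, map_add, map_add, h1, h2]
    | mul x x' m1 m2 h1 h2 =>
      have f : (⟨x * x', mul_mem m1 m2⟩ : Zw r w) = ⟨x, m1⟩ * ⟨x', m2⟩ := rfl
      rw [f, map_mul, map_mul, h1, h2]
  · -- surjectivity
    rintro ⟨s, hs, φ, hφ, hyO, hφy⟩
    set a : OO 2 ρ := ⟨(ρ g).1 0 0, mem_OO ρ g 0 0⟩ with ha
    set c : OO 2 ρ := ⟨(ρ g).1 1 0, mem_OO ρ g 1 0⟩ with hc
    have hφa : φ a = 0 := by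
      rw [ha, hφ, hs]; rfl
    have hφc : φ c = 1 := by
      rw [hc, hφ, hs]; rfl
    have hc0 : (c : F) ≠ 0 := hCF.cne
    obtain ⟨A, θ, hθ, hinv⟩ := pts_ext (OO 2 ρ).toSubring (φ : OO 2 ρ →+* κ)
      (c * ⟨_, hyO⟩) (mul_ne_zero hc0 hyF) (by
        change φ (c * ⟨_, hyO⟩) ≠ 0
        rw [map_mul, hφc, one_mul]; exact hφy)
    have hθ' : ∀ x : OO 2 ρ, ∃ hx : (x : F) ∈ A, θ ⟨x, hx⟩ = φ x := fun x => hθ x
    have hinv' : ((c : F) * algebraMap K F y)⁻¹ ∈ A := hinv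
    have hcA : (c : F)⁻¹ ∈ A := by
      obtain ⟨h1, _⟩ := hθ' ⟨_, hyO⟩
      have h2 : (c : F)⁻¹ = algebraMap K F y * ((c : F) * algebraMap K F y)⁻¹ := by
        field_simp
      rw [h2]
      exact A.mul_mem h1 hinv'
    have hyA : (algebraMap K F y)⁻¹ ∈ A := by
      obtain ⟨h1, _⟩ := hθ' c
      have h2 : (algebraMap K F y)⁻¹ = c * ((c : F) * algebraMap K F y)⁻¹ := by
        field_simp
      rw [h2]
      exact A.mul_mem h1 hinv'
    have hθc : θ ⟨(c : F)⁻¹, hcA⟩ = 1 := by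
      obtain ⟨h1, h2⟩ := hθ' c
      have h3 : (⟨(c : F)⁻¹, hcA⟩ : A) * ⟨c, h1⟩ = 1 := Subtype.ext (inv_mul_cancel₀ hc0)
      have h4 := congrArg θ h3
      rw [map_mul, map_one, h2, hφc, mul_one] at h4
      exact h4
    obtain ⟨haA, hθa⟩ := hθ' a
    obtain ⟨hcA', hθc'⟩ := hθ' c
    rw [hφa] at hθa
    rw [hφc] at hθc'
    -- the entries
    have hent : ∀ h i j, ∃ hx : ι ((r h).1 i j) ∈ A, θ ⟨_, hx⟩ = (s h).1 i j := by
      intro h
      have hP := hCF.conj h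
      have e00 := congrFun (congrFun hP 0) 0
      have e01 := congrFun (congrFun hP 0) 1
      have e10 := congrFun (congrFun hP 1) 0
      have e11 := congrFun (congrFun hP 1) 1
      simp only [Pm, Matrix.mul_apply, Fin.sum_univ_two, Matrix.of_apply, Matrix.cons_val_zero,
        Matrix.cons_val_one, Matrix.cons_val', Matrix.empty_val', Matrix.cons_val_fin_one,
        Matrix.map_apply, one_mul, zero_mul, zero_add, mul_one, mul_zero, add_zero] at e00 e01 e10 e11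
      obtain ⟨m00, t00⟩ := hθ' ⟨(ρ h).1 0 0, mem_OO ρ h 0 0⟩
      obtain ⟨m01, t01⟩ := hθ' ⟨(ρ h).1 0 1, mem_OO ρ h 0 1⟩
      obtain ⟨m10, t10⟩ := hθ' ⟨(ρ h).1 1 0, mem_OO ρ h 1 0⟩
      obtain ⟨m11, t11⟩ := hθ' ⟨(ρ h).1 1 1, mem_OO ρ h 1 1⟩
      rw [hφ] at t00 t01 t10 t11
      have r10 : ∃ hx : ι ((r h).1 1 0) ∈ A, θ ⟨_, hx⟩ = (s h).1 1 0 := by
        have h1 : ι ((r h).1 1 0) = ((⟨(c : F)⁻¹, hcA⟩ * ⟨(ρ h).1 1 0, m10⟩ : A) : F) := by
          change _ = (c : F)⁻¹ * (ρ h).1 1 0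
          rw [← e10, inv_mul_cancel_left₀ hc0]
        refine ⟨by rw [h1]; exact Subtype.prop _, ?_⟩
        have h2 : (⟨ι ((r h).1 1 0), by rw [h1]; exact Subtype.prop _⟩ : A) =
          ⟨(c : F)⁻¹, hcA⟩ * ⟨(ρ h).1 1 0, m10⟩ := Subtype.ext h1
        rw [h2, map_mul, hθc, one_mul, t10]
      have r11 : ∃ hx : ι ((r h).1 1 1) ∈ A, θ ⟨_, hx⟩ = (s h).1 1 1 := by
        have h1 : ι ((r h).1 1 1) = ((⟨(c : F)⁻¹, hcA⟩ *
            (⟨(ρ h).1 1 0, m10⟩ * ⟨a, haA⟩ + ⟨(ρ h).1 1 1, m11⟩ * ⟨c, hcA'⟩) : A) : F) := by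
          change _ = (c : F)⁻¹ * ((ρ h).1 1 0 * (ρ g).1 0 0 + (ρ h).1 1 1 * (ρ g).1 1 0)
          rw [← e11, inv_mul_cancel_left₀ hc0]
        refine ⟨by rw [h1]; exact Subtype.prop _, ?_⟩
        have h2 : (⟨ι ((r h).1 1 1), by rw [h1]; exact Subtype.prop _⟩ : A) =
          ⟨(c : F)⁻¹, hcA⟩ * (⟨(ρ h).1 1 0, m10⟩ * ⟨a, haA⟩ + ⟨(ρ h).1 1 1, m11⟩ * ⟨c, hcA'⟩) :=
          Subtype.ext h1
        rw [h2, map_mul, map_add, map_mul, map_mul, hθc, hθa, hθc', t11]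
        ring
      obtain ⟨n10, u10⟩ := r10
      obtain ⟨n11, u11⟩ := r11
      have r00 : ∃ hx : ι ((r h).1 0 0) ∈ A, θ ⟨_, hx⟩ = (s h).1 0 0 := by
        have h1 : ι ((r h).1 0 0) = ((⟨(ρ h).1 0 0, m00⟩ - ⟨a, haA⟩ * ⟨_, n10⟩ : A) : F) := by
          change _ = (ρ h).1 0 0 - (ρ g).1 0 0 * ι ((r h).1 1 0)
          rw [← e00]; ring
        refine ⟨by rw [h1]; exact Subtype.prop _, ?_⟩
        have h2 : (⟨ι ((r h).1 0 0), by rw [h1]; exact Subtype.prop _⟩ : A) =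
          ⟨(ρ h).1 0 0, m00⟩ - ⟨a, haA⟩ * ⟨_, n10⟩ := Subtype.ext h1
        rw [h2, map_sub, map_mul, hθa, t00]
        ring
      have r01 : ∃ hx : ι ((r h).1 0 1) ∈ A, θ ⟨_, hx⟩ = (s h).1 0 1 := by
        have h1 : ι ((r h).1 0 1) = ((⟨(ρ h).1 0 0, m00⟩ * ⟨a, haA⟩ +
            ⟨(ρ h).1 0 1, m01⟩ * ⟨c, hcA'⟩ - ⟨a, haA⟩ * ⟨_, n11⟩ : A) : F) := by
          change _ = (ρ h).1 0 0 * (ρ g).1 0 0 + (ρ h).1 0 1 * (ρ g).1 1 0 -
            (ρ g).1 0 0 * ι ((r h).1 1 1)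
          rw [← e01]; ring
        refine ⟨by rw [h1]; exact Subtype.prop _, ?_⟩
        have h2 : (⟨ι ((r h).1 0 1), by rw [h1]; exact Subtype.prop _⟩ : A) =
          ⟨(ρ h).1 0 0, m00⟩ * ⟨a, haA⟩ +
            ⟨(ρ h).1 0 1, m01⟩ * ⟨c, hcA'⟩ - ⟨a, haA⟩ * ⟨_, n11⟩ := Subtype.ext h1
        rw [h2, map_sub, map_add, map_mul, map_mul, map_mul, hθa, hθc', t01]
        ring
      intro i j
      fin_cases i <;> fin_cases j
      exacts [r00, r01, ⟨n10, u10⟩, ⟨n11, u11⟩]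
    have hιy : ι (algebraMap K L y) = algebraMap K F y := ι.commutes _
    have hιZ : ∀ z, z ∈ Zw r w → ι z ∈ A := by
      intro z hz
      induction hz using Algebra.adjoin_induction with
      | mem x hx =>
        rcases hx with hx | hx
        · obtain ⟨h, i, j, rfl⟩ := hx
          exact (hent h i j).1
        · have hx' : x = w := hx
          subst hx'
          rw [hw, map_inv₀, hιy]
          exact hyA
      | algebraMap e =>
        have h1 : ι (algebraMap (ZMod 2) L e) = algebraMap (ZMod 2) F e :=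
          pts_zmod (ι : L →+* F) e
        rw [h1]
        exact (hθ' (algebraMap (ZMod 2) (OO 2 ρ) e)).1
      | add x x' _ _ h1 h2 => rw [map_add]; exact A.add_mem h1 h2
      | mul x x' _ _ h1 h2 => rw [map_mul]; exact A.mul_mem h1 h2
    let ζ0 : Zw r w →+* κ := θ.comp
      (((ι : L →+* F).comp (Zw r w).val.toRingHom).codRestrict A fun z => hιZ z z.2)
    let ζ : Zw r w →ₐ[ZMod 2] κ := { ζ0 with commutes' := fun e => pts_zmod ζ0 e }
    refine ⟨ζ, ?_⟩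
    apply Subtype.ext
    change pts_e r w ζ = s
    ext1 h
    apply Subtype.ext
    ext i j
    rw [pts_e_apply]
    exact (hent h i j).2
  · intro ζ h i j
    rfl

/-- two homomorphisms from `OO` with the same traces agree on the image of `BB 2 T` -/
private theorem cb_agree {b : ℕ} {Γ K F κ : Type} [Group Γ] [Field K] [Field F] [Field κ]
    [Algebra (ZMod 2) K] [Algebra (ZMod 2) F] [Algebra (ZMod 2) κ] [Algebra K F] {T : Γ → K}
    {ρ : Γ →* Matrix.SpecialLinearGroup (Fin 2) F} {g : Γ} (hH : HG b Γ K F T ρ g)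
    (φ φ' : OO 2 ρ →ₐ[ZMod 2] κ) (s s' : Γ →* Matrix.SpecialLinearGroup (Fin 2) κ)
    (hs : ∀ h i j, φ ⟨(ρ h).1 i j, mem_OO ρ h i j⟩ = (s h).1 i j)
    (hs' : ∀ h i j, φ' ⟨(ρ h).1 i j, mem_OO ρ h i j⟩ = (s' h).1 i j)
    (htr : ∀ h, (s h).1.trace = (s' h).1.trace) (x : K) (hx : x ∈ BB 2 T) :
    ∃ h : algebraMap K F x ∈ OO 2 ρ, φ ⟨_, h⟩ = φ' ⟨_, h⟩ := by
  refine Algebra.adjoin_induction (p := fun x _ => ∃ h : algebraMap K F x ∈ OO 2 ρ,
    φ ⟨_, h⟩ = φ' ⟨_, h⟩) ?_ ?_ ?_ ?_ hx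
  · rintro x ⟨h, rfl⟩
    have e1 : algebraMap K F (T h) = (ρ h).1 0 0 + (ρ h).1 1 1 := by
      rw [← hH.tr h, Matrix.trace_fin_two]
    have hm : algebraMap K F (T h) ∈ OO 2 ρ := by
      rw [e1]
      exact (OO 2 ρ).add_mem (mem_OO ρ h 0 0) (mem_OO ρ h 1 1)
    refine ⟨hm, ?_⟩
    have e2 : (⟨_, hm⟩ : OO 2 ρ) = ⟨(ρ h).1 0 0, mem_OO ρ h 0 0⟩ + ⟨(ρ h).1 1 1, mem_OO ρ h 1 1⟩ :=
      Subtype.ext e1
    rw [e2, map_add, map_add, hs, hs, hs', hs', ← Matrix.trace_fin_two, ← Matrix.trace_fin_two]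
    exact htr h
  · intro r
    have e1 : algebraMap K F (algebraMap (ZMod 2) K r) = algebraMap (ZMod 2) F r := by
      have : (algebraMap K F).comp (algebraMap (ZMod 2) K) = algebraMap (ZMod 2) F :=
        Subsingleton.elim _ _
      exact congrArg (fun f : ZMod 2 →+* F => f r) this
    have hm : algebraMap K F (algebraMap (ZMod 2) K r) ∈ OO 2 ρ := by
      rw [e1]
      exact (OO 2 ρ).algebraMap_mem r
    refine ⟨hm, ?_⟩
    have e2 : (⟨_, hm⟩ : OO 2 ρ) = algebraMap (ZMod 2) (OO 2 ρ) r := Subtype.ext e1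
    rw [e2, AlgHom.commutes, AlgHom.commutes]
  · rintro x y _ _ ⟨h1, e1⟩ ⟨h2, e2⟩
    have e : algebraMap K F (x + y) = algebraMap K F x + algebraMap K F y := map_add _ _ _
    have hm : algebraMap K F (x + y) ∈ OO 2 ρ := by
      rw [e]
      exact (OO 2 ρ).add_mem h1 h2
    refine ⟨hm, ?_⟩
    have e3 : (⟨_, hm⟩ : OO 2 ρ) = ⟨_, h1⟩ + ⟨_, h2⟩ := Subtype.ext e
    rw [e3, map_add, map_add, e1, e2]
  · rintro x y _ _ ⟨h1, e1⟩ ⟨h2, e2⟩
    have e : algebraMap K F (x * y) = algebraMap K F x * algebraMap K F y := map_mul _ _ _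
    have hm : algebraMap K F (x * y) ∈ OO 2 ρ := by
      rw [e]
      exact (OO 2 ρ).mul_mem h1 h2
    refine ⟨hm, ?_⟩
    have e3 : (⟨_, hm⟩ : OO 2 ρ) = ⟨_, h1⟩ * ⟨_, h2⟩ := Subtype.ext e
    rw [e3, map_mul, map_mul, e1, e2]

/-- the representation of a point -/
theorem g_rep {Γ F κ : Type} [Group Γ] [Field F] [Field κ]
    [Algebra (ZMod 2) F] [Algebra (ZMod 2) κ]
    (ρ : Γ →* Matrix.SpecialLinearGroup (Fin 2) F) (φ : OO 2 ρ →ₐ[ZMod 2] κ) :
    ∃ s : Γ →* Matrix.SpecialLinearGroup (Fin 2) κ,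
      ∀ h i j, φ ⟨(ρ h).1 i j, mem_OO ρ h i j⟩ = (s h).1 i j := by
  let M : Γ → Matrix (Fin 2) (Fin 2) (OO 2 ρ) := fun h i j => ⟨(ρ h).1 i j, mem_OO ρ h i j⟩
  have hM1 : M 1 = 1 := by
    ext i j
    change (ρ 1).1 i j = (((1 : Matrix (Fin 2) (Fin 2) (OO 2 ρ)) i j : OO 2 ρ) : F)
    rw [map_one, Matrix.SpecialLinearGroup.coe_one, Matrix.one_apply, Matrix.one_apply]
    split_ifs <;> rfl
  have hMm : ∀ x y, M (x * y) = M x * M y := by
    intro x y
    ext i j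
    change (ρ (x * y)).1 i j = (((M x * M y) i j : OO 2 ρ) : F)
    rw [map_mul, Matrix.SpecialLinearGroup.coe_mul, Matrix.mul_apply, Matrix.mul_apply,
      Fin.sum_univ_two, Fin.sum_univ_two]
    rfl
  have hMd : ∀ x, (M x).det = 1 := by
    intro x
    apply Subtype.ext
    rw [Matrix.det_fin_two]
    have h := (ρ x).2
    rw [Matrix.det_fin_two] at h
    exact h
  refine ⟨{ toFun := fun h => ⟨(M h).map (φ : OO 2 ρ →+* κ), ?_⟩
            map_one' := ?_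
            map_mul' := ?_ }, fun h i j => rfl⟩
  · have := RingHom.map_det (φ : OO 2 ρ →+* κ) (M h)
    rw [hMd, map_one] at this
    exact this.symm
  · apply Subtype.ext
    change (M 1).map _ = 1
    rw [hM1]
    exact Matrix.map_one _ (map_zero _) (map_one _)
  · intro x y
    apply Subtype.ext
    change (M (x * y)).map _ = (M x).map _ * (M y).map _
    rw [hMm, Matrix.map_mul]

theorem g_cb (b : ℕ) (Γ K F L : Type) [Group Γ] [Field K] [Field F] [Field L]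
    [Algebra (ZMod 2) K] [Algebra (ZMod 2) F] [Algebra (ZMod 2) L] [Algebra K F] [Algebra K L]
    (T : Γ → K) (ρ : Γ →* Matrix.SpecialLinearGroup (Fin 2) F) (g : Γ) (hH : HG b Γ K F T ρ g)
    (ι : L →ₐ[K] F) (r : Γ →* Matrix.SpecialLinearGroup (Fin 2) L)
    (hCF : CF ι ρ r g) (hrg : (r g).1 = cmp (algebraMap K L (T g)))
    (hrt : ∀ h, (r h).1.trace = algebraMap K L (T h)) (y : BB 2 T) (hy : (y : K) ≠ 0)
    (hyz : ∃ z : BB 2 T, (y : K) = T g * z) (k : ℕ) (hk : 1 ≤ k) :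
    (cnt (K := K) ρ y k : ℤ) =
      2 ^ k * (2 ^ k + 1) * Nat.card {ζ : Zw r (algebraMap K L y)⁻¹ →ₐ[ZMod 2] GaloisField 2 k //
        Sp (ζ ⟨(r g).1 1 1, mem_Zw r _ g 1 1⟩)} +
      2 ^ k * (2 ^ k - 1) * Nat.card {ζ : Zw r (algebraMap K L y)⁻¹ →ₐ[ZMod 2] GaloisField 2 k //
        ¬ Sp (ζ ⟨(r g).1 1 1, mem_Zw r _ g 1 1⟩)} := by
  classical
  have hfg : Group.FG Γ := hH.fg
  have hcard : Nat.card (GaloisField 2 k) = 2 ^ k := GaloisField.card 2 k (by omega)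
  -- the property
  let P : (Γ →* Matrix.SpecialLinearGroup (Fin 2) (GaloisField 2 k)) → Prop := fun s =>
    ∃ φ : OO 2 ρ →ₐ[ZMod 2] GaloisField 2 k,
      (∀ h i j, φ ⟨(ρ h).1 i j, mem_OO ρ h i j⟩ = (s h).1 i j) ∧
      ∃ hy : algebraMap K F y ∈ OO 2 ρ, φ ⟨_, hy⟩ ≠ 0
  choose rep hrep using fun φ : OO 2 ρ →ₐ[ZMod 2] GaloisField 2 k => g_rep ρ φ
  have hrinj : Function.Injective rep := by
    intro φ ψ hφψ
    have h1 : ∀ g i j, φ ⟨(ρ g).1 i j, mem_OO ρ g i j⟩ = ψ ⟨(ρ g).1 i j, mem_OO ρ g i j⟩ := by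
      intro g i j
      rw [hrep φ g i j, hrep ψ g i j, hφψ]
    refine AlgHom.adjoin_ext (s := {x | ∃ g i j, x = (ρ g).1 i j}) (φ₁ := φ) (φ₂ := ψ) ?_
    rintro x ⟨g, i, j, rfl⟩
    exact h1 g i j
  have h1 : cnt (K := K) ρ y k = Nat.card {s // P s} := by
    unfold cnt
    refine Nat.card_congr (Equiv.ofBijective
      (fun φ : {φ : OO 2 ρ →ₐ[ZMod 2] GaloisField 2 k //
        ∃ h : algebraMap K F y ∈ OO 2 ρ, φ ⟨_, h⟩ ≠ 0} =>
        (⟨rep φ.1, φ.1, hrep φ.1, φ.2⟩ : {s // P s})) ⟨?_, ?_⟩)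
    · intro φ ψ h
      exact Subtype.ext (hrinj (congrArg Subtype.val h))
    · rintro ⟨s, φ, hφ, h⟩
      refine ⟨⟨φ, h⟩, Subtype.ext ?_⟩
      change rep φ = s
      ext a i j
      rw [← hrep, hφ]
  have htr0 : ∀ s, P s → (s g).1.trace ≠ 0 := by
    rintro s ⟨φ, hφ, hy', h0⟩ htz
    obtain ⟨z, hz⟩ := hyz
    obtain ⟨h2, _⟩ := cb_agree hH φ φ s s hφ hφ (fun _ => rfl) z z.2
    apply h0
    have e1 : (⟨_, hy'⟩ : OO 2 ρ) =
        (⟨(ρ g).1 0 0, mem_OO ρ g 0 0⟩ + ⟨(ρ g).1 1 1, mem_OO ρ g 1 1⟩) * ⟨_, h2⟩ := by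
      apply Subtype.ext
      change algebraMap K F y = ((ρ g).1 0 0 + (ρ g).1 1 1) * algebraMap K F z
      rw [hz, map_mul, ← hH.tr g, Matrix.trace_fin_two]
    rw [e1, map_mul, map_add, hφ, hφ, ← Matrix.trace_fin_two, htz, zero_mul]
  have hinv : ∀ s s' : Γ →* Matrix.SpecialLinearGroup (Fin 2) (GaloisField 2 k),
      ∀ u : Matrix (Fin 2) (Fin 2) (GaloisField 2 k),
      u.det ≠ 0 → (∀ h, u * (s h).1 = (s' h).1 * u) → P s → P s' := by
    rintro s s' u hu hus ⟨φ, hφ, hy', h0⟩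
    have htr : ∀ h, (s h).1.trace = (s' h).1.trace := by
      intro h
      have hinv : u⁻¹ * u = 1 := Matrix.nonsing_inv_mul u (isUnit_iff_ne_zero.2 hu)
      have hinv' : u * u⁻¹ = 1 := Matrix.mul_nonsing_inv u (isUnit_iff_ne_zero.2 hu)
      calc (s h).1.trace = (u⁻¹ * (u * (s h).1)).trace := by
            rw [← Matrix.mul_assoc, hinv, Matrix.one_mul]
        _ = (u⁻¹ * ((s' h).1 * u)).trace := by rw [hus]
        _ = (((s' h).1 * u) * u⁻¹).trace := Matrix.trace_mul_comm _ _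
        _ = (s' h).1.trace := by rw [Matrix.mul_assoc, hinv', Matrix.mul_one]
    obtain ⟨φ', hφ'⟩ := hH.pts (GaloisField 2 k) s' (by
      rw [← htr g]
      exact htr0 s ⟨φ, hφ, hy', h0⟩)
    obtain ⟨h2, h3⟩ := cb_agree hH φ φ' s s' hφ hφ' htr y y.2
    exact ⟨φ', hφ', h2, by rw [← h3]; exact h0⟩
  have h2 := p_cnt Γ (GaloisField 2 k) g P hinv htr0
  obtain ⟨e, he⟩ := g_pts b Γ K F L T ρ g hH ι r hCF hrg hrt y hy hyz (GaloisField 2 k)
  have h3 : ∀ ζ, ζ ⟨(r g).1 1 1, mem_Zw r _ g 1 1⟩ = ((e ζ).1 g).1.trace := by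
    intro ζ
    rw [he ζ g 1 1]
    conv_lhs => rw [(e ζ).2.1]
    simp [FrNC.cmp]
  have key : ∀ Q : GaloisField 2 k → Prop,
      Nat.card {s // P s ∧ (s g).1 = cmp (s g).1.trace ∧ Q (s g).1.trace} =
      Nat.card {ζ : Zw r (algebraMap K L y)⁻¹ →ₐ[ZMod 2] GaloisField 2 k //
        Q (ζ ⟨(r g).1 1 1, mem_Zw r _ g 1 1⟩)} := by
    intro Q
    refine Nat.card_congr (Equiv.symm ?_)
    refine (Equiv.subtypeEquiv (q := fun s => Q (s.1 g).1.trace) e fun ζ => ?_).trans ?_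
    · rw [h3 ζ]
    · refine (Equiv.subtypeSubtypeEquivSubtypeInter _
        (fun s : Γ →* Matrix.SpecialLinearGroup (Fin 2) (GaloisField 2 k) =>
          Q (s g).1.trace)).trans ?_
      refine Equiv.subtypeEquivRight fun s => ?_
      change (((s g).1 = cmp (s g).1.trace ∧ P s) ∧ Q (s g).1.trace) ↔ _
      tauto
  rw [h1, h2, key, key (fun x => ¬ Sp x), hcard]
  push_cast
  ring

end Pool.Agent.SuG
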