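import Pool.Agent.Lib.MP_305fdd_al.Su.S.Defs
import Pool.Agent.Lib.MP_305fdd_al.Fr.S.Norm

/-!
# MP_305fdd_al, surface groups: the ends of a cyclic edge of a minimal splitting

The theorems of `Fr/S/Norm` (last section) with the class `Blk` replaced by `Sc` and torsion freeness.
-/

set_option autoImplicit false
set_option linter.unusedSectionVars false

namespace Pool.Agent.SuG

open Matrix (SpecialLinearGroup)
open Pool.Agent.FrN Pool.Agent.FrAsm Pool.Agent.FrX Pool.Agent.FrS Pool.Agent.SuS Pool.Agent.SuX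

section root

variable {Γ K F : Type} [Group Γ] [Field K] [Field F] [Algebra (ZMod 2) K]
  [Algebra (ZMod 2) F] [Algebra K F] {T : Γ → K} {ρ : Γ →* SpecialLinearGroup (Fin 2) F}

/-- An abelian leaf (at the second end of its edge) with cyclic edge group is a root leaf. -/
theorem root_b (H : Sc Γ K F T ρ) (htf : ∀ (x : Γ) (n : ℕ), n ≠ 0 → x ^ n = 1 → x = 1) {S : GG Γ} (hS : S.Adm) (e : S.E) (hne : S.a e ≠ S.b e)
    (hl : S.Leaf (S.b e) e) (hab : ¬ S.NA (S.b e)) {z : Γ} (hz : S.C e = Subgroup.zpowers z) :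
    ∃ w m, RL S e w m := by
  have hnc : ∃ y z : Γ, y * z ≠ z * y := by
    by_contra hcon
    push Not at hcon
    exact H.nab fun x y => hcon x y
  obtain ⟨hfi, _⟩ := H.lx.adm H.inj hnc S hS (S.b e) hab
  have hEG : EG S (S.b e) = Subgroup.zpowers ((S.s e)⁻¹ * z * S.s e) := by
    apply le_antisymm
    · unfold EG
      rw [Subgroup.closure_le]
      rintro c ⟨e', ⟨h1, h2⟩ | ⟨h1, d, h2, rfl⟩⟩
      · have h3 := hl e' (Or.inl h1)
        subst h3
        exact absurd h1 hne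
      · have h3 := hl e' (Or.inr h1)
        subst h3
        rw [hz] at h2
        obtain ⟨n, rfl⟩ := Subgroup.mem_zpowers_iff.1 h2
        refine Subgroup.mem_zpowers_iff.2 ⟨n, ?_⟩
        have h4 := conj_zpow (a := (S.s e')⁻¹) (b := z) (i := n)
        rw [inv_inv] at h4
        exact h4
    · rw [Subgroup.zpowers_le]
      refine Subgroup.subset_closure ⟨e, Or.inr ⟨rfl, z, ?_, rfl⟩⟩
      rw [hz]
      exact Subgroup.mem_zpowers z
  obtain ⟨w, hw⟩ := cyc_of_fin htf (S.G (S.b e))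
    (EG S (S.b e)) (not_not.1 hab) _ hEG hfi
  have hzC : z ∈ S.C e := by
    rw [hz]
    exact Subgroup.mem_zpowers z
  have hz1 : z ≠ 1 := by
    rintro rfl
    exact hS.ne e (by rw [hz, Subgroup.zpowers_one_eq_bot])
  obtain ⟨w, m, hm, hw, hzw⟩ := root_num ((S.s e)⁻¹ * z * S.s e) (S.G (S.b e)) w hw
    (S.Cb e z hzC) (by
      intro h1
      apply hz1
      have h2 : z = S.s e * ((S.s e)⁻¹ * z * S.s e) * (S.s e)⁻¹ := by group
      rw [h2, h1]
      group) (by
      obtain ⟨g, hg, hg'⟩ := hS.ntb e hne hl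
      refine ⟨g, hg, fun h1 => hg' ?_⟩
      obtain ⟨n, rfl⟩ := Subgroup.mem_zpowers_iff.1 h1
      rw [hz]
      refine Subgroup.mem_zpowers_iff.2 ⟨n, ?_⟩
      have h4 := conj_zpow (a := (S.s e)⁻¹) (b := z) (i := n)
      rw [inv_inv] at h4
      rw [h4]
      group)
  refine ⟨w, m, hm, hne, Or.inl ⟨hl, hw, ?_⟩⟩
  apply le_antisymm
  · rw [hz, Subgroup.zpowers_le]
    have h1 : (S.s e)⁻¹ * z * S.s e ∈ Subgroup.zpowers (w ^ m) := by
      rw [← hzw]
      exact Subgroup.mem_zpowers _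
    obtain ⟨n, hn⟩ := Subgroup.mem_zpowers_iff.1 h1
    refine Subgroup.mem_zpowers_iff.2 ⟨n, ?_⟩
    rw [conj_zpow, hn]
    group
  · rw [Subgroup.zpowers_le, hz]
    have h1 : w ^ m ∈ Subgroup.zpowers ((S.s e)⁻¹ * z * S.s e) := by
      rw [hzw]
      exact Subgroup.mem_zpowers _
    obtain ⟨n, hn⟩ := Subgroup.mem_zpowers_iff.1 h1
    refine Subgroup.mem_zpowers_iff.2 ⟨n, ?_⟩
    have h4 := conj_zpow (a := (S.s e)⁻¹) (b := z) (i := n)
    rw [inv_inv] at h4
    rw [← hn, h4]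
    group

/-- An abelian leaf (at the first end of its edge) with cyclic edge group is a root leaf. -/
theorem root_a (H : Sc Γ K F T ρ) (htf : ∀ (x : Γ) (n : ℕ), n ≠ 0 → x ^ n = 1 → x = 1) {S : GG Γ} (hS : S.Adm) (e : S.E) (hne : S.a e ≠ S.b e)
    (hl : S.Leaf (S.a e) e) (hab : ¬ S.NA (S.a e)) {z : Γ} (hz : S.C e = Subgroup.zpowers z) :
    ∃ w m, RL S e w m := by
  have hnc : ∃ y z : Γ, y * z ≠ z * y := by
    by_contra hcon
    push Not at hcon
    exact H.nab fun x y => hcon x y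
  obtain ⟨hfi, _⟩ := H.lx.adm H.inj hnc S hS (S.a e) hab
  have hEG : EG S (S.a e) = Subgroup.zpowers z := by
    apply le_antisymm
    · unfold EG
      rw [Subgroup.closure_le]
      rintro c ⟨e', ⟨h1, h2⟩ | ⟨h1, d, h2, rfl⟩⟩
      · have h3 := hl e' (Or.inl h1)
        subst h3
        rw [hz] at h2
        exact h2
      · have h3 := hl e' (Or.inr h1)
        subst h3
        exact absurd h1.symm hne
    · rw [Subgroup.zpowers_le]
      refine Subgroup.subset_closure ⟨e, Or.inl ⟨rfl, ?_⟩⟩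
      rw [hz]
      exact Subgroup.mem_zpowers z
  obtain ⟨w, hw⟩ := cyc_of_fin htf (S.G (S.a e))
    (EG S (S.a e)) (not_not.1 hab) _ hEG hfi
  have hzC : z ∈ S.C e := by
    rw [hz]
    exact Subgroup.mem_zpowers z
  have hz1 : z ≠ 1 := by
    rintro rfl
    exact hS.ne e (by rw [hz, Subgroup.zpowers_one_eq_bot])
  obtain ⟨w, m, hm, hw, hzw⟩ := root_num z (S.G (S.a e)) w hw (S.Ca e hzC) hz1 (by
      obtain ⟨g, hg, hg'⟩ := hS.nta e hne hl
      exact ⟨g, hg, by rwa [hz] at hg'⟩)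
  exact ⟨w, m, hm, hne, Or.inr ⟨hl, hw, by rw [hz, hzw]⟩⟩

/-- A cyclic edge, not a root leaf, of a splitting in which every edge has a non-abelian end: the first end is non-abelian or it is
joined to a non-abelian vertex by another edge. -/
theorem side_a (H : Sc Γ K F T ρ) (htf : ∀ (x : Γ) (n : ℕ), n ≠ 0 → x ^ n = 1 → x = 1) {S : GG Γ} (hS : S.Adm) (hE : ∀ e, S.NA (S.a e) ∨ S.NA (S.b e)) (e : S.E) (hc : Cyc S e)
    (hr : ¬ ∃ w m, RL S e w m) :
    S.NA (S.a e) ∨ ∃ e', e' ≠ e ∧ ((S.a e' = S.a e ∧ S.NA (S.b e')) ∨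
      (S.b e' = S.a e ∧ S.NA (S.a e'))) := by
  by_cases ha : S.NA (S.a e)
  · exact Or.inl ha
  right
  have hne : S.a e ≠ S.b e := fun h0 => ha ((hE e).elim id fun h => by rwa [← h0] at h)
  obtain ⟨z, hz⟩ := hc
  have hl : ¬ S.Leaf (S.a e) e := fun hl => hr (root_a H htf hS e hne hl ha hz)
  unfold GG.Leaf at hl
  push Not at hl
  obtain ⟨e', h1, h2⟩ := hl
  refine ⟨e', h2, ?_⟩
  rcases h1 with h1 | h1
  · left
    refine ⟨h1, ?_⟩
    rcases hE e' with h3 | h3
    · rw [h1] at h3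
      exact absurd h3 ha
    · exact h3
  · right
    refine ⟨h1, ?_⟩
    rcases hE e' with h3 | h3
    · exact h3
    · rw [h1] at h3
      exact absurd h3 ha

/-- A cyclic edge, not a root leaf, of a splitting in which every edge has a non-abelian end: the second
end is non-abelian or it is joined to a non-abelian vertex by another edge. -/
theorem side_b (H : Sc Γ K F T ρ) (htf : ∀ (x : Γ) (n : ℕ), n ≠ 0 → x ^ n = 1 → x = 1) {S : GG Γ} (hS : S.Adm) (hE : ∀ e, S.NA (S.a e) ∨ S.NA (S.b e)) (e : S.E) (hc : Cyc S e)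
    (hr : ¬ ∃ w m, RL S e w m) :
    S.NA (S.b e) ∨ ∃ e', e' ≠ e ∧ ((S.a e' = S.b e ∧ S.NA (S.b e')) ∨
      (S.b e' = S.b e ∧ S.NA (S.a e'))) := by
  by_cases ha : S.NA (S.b e)
  · exact Or.inl ha
  right
  have hne : S.a e ≠ S.b e := fun h0 => ha ((hE e).elim (fun h => by rwa [h0] at h) id)
  obtain ⟨z, hz⟩ := hc
  have hl : ¬ S.Leaf (S.b e) e := fun hl => hr (root_b H htf hS e hne hl ha hz)
  unfold GG.Leaf at hl
  push Not at hl
  obtain ⟨e', h1, h2⟩ := hl
  refine ⟨e', h2, ?_⟩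
  rcases h1 with h1 | h1
  · left
    refine ⟨h1, ?_⟩
    rcases hE e' with h3 | h3
    · rw [h1] at h3
      exact absurd h3 ha
    · exact h3
  · right
    refine ⟨h1, ?_⟩
    rcases hE e' with h3 | h3
    · exact h3
    · rw [h1] at h3
      exact absurd h3 ha

end root

end Pool.Agent.SuG
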